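import Pool.Agent.Work.MP_92c8f1_an.Amen
import Mathlib.Analysis.CStarAlgebra.Unitary.Span
import Mathlib.Analysis.CStarAlgebra.ContinuousMap

/-!
Amenability of the algebra of continuous functions on a compact space (Johnson).
-/

set_option maxSynthPendingDepth 3

namespace Pool.Agent.Work.MP_92c8f1_an.Hedge

open Pool.Agent.Work.MP_92c8f1_an Set Function Metric

universe u v

theorem folner {G : Type*} [CommMonoid G] {Y : Type*} [NormedAddCommGroup Y] (F : Finset G)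
    {N : ℕ} (hN : 0 < N) : ∃ (ι : Type) (_ : Fintype ι) (_ : Nonempty ι) (g : ι → G),
      ∀ u ∈ F, ∀ (Ψ : G → Y) (C : ℝ), (∀ h, ‖Ψ h‖ ≤ C) →
        ‖∑ i, Ψ (u * g i) - ∑ i, Ψ (g i)‖ ≤ Fintype.card ι * (2 * C / N) := by
  classical
  have hN' : (0 : ℝ) < N := by exact_mod_cast hN
  induction F using Finset.induction_on with
  | empty => exact ⟨Unit, inferInstance, inferInstance, fun _ => 1, by simp⟩
  | insert v F hv ih =>
    obtain ⟨ι, _, _, g, h⟩ := ih
    have : Nonempty (Fin N) := ⟨⟨0, hN⟩⟩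
    refine ⟨ι × Fin N, inferInstance, inferInstance, fun p => g p.1 * v ^ (p.2 : ℕ),
      fun u hu Ψ C hC => ?_⟩
    rw [Fintype.card_prod, Fintype.card_fin]
    rcases Finset.mem_insert.1 hu with rfl | hu
    · rw [Fintype.sum_prod_type, Fintype.sum_prod_type, ← Finset.sum_sub_distrib]
      have e : ∀ i, ∑ k : Fin N, Ψ (u * (g i * u ^ (k : ℕ))) - ∑ k : Fin N, Ψ (g i * u ^ (k : ℕ))
          = Ψ (g i * u ^ N) - Ψ (g i * u ^ 0) := fun i => by
        rw [← Finset.sum_range_sub (fun k => Ψ (g i * u ^ k)), ← Finset.sum_sub_distrib,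
          ← Fin.sum_univ_eq_sum_range (fun k => Ψ (g i * u ^ (k + 1)) - Ψ (g i * u ^ k))]
        exact Finset.sum_congr rfl fun k _ => by rw [mul_left_comm, pow_succ']
      simp only [e]
      refine (norm_sum_le _ _).trans ((Finset.sum_le_sum fun i _ =>
        (norm_sub_le _ _).trans (add_le_add (hC _) (hC _))).trans (le_of_eq ?_))
      simp only [Finset.sum_const, Finset.card_univ, nsmul_eq_mul]
      push_cast
      field_simp
      ring
    · rw [Fintype.sum_prod_type_right, Fintype.sum_prod_type_right, ← Finset.sum_sub_distrib]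
      refine (norm_sum_le _ _).trans ((Finset.sum_le_sum fun k _ => ?_ :
        _ ≤ ∑ _k : Fin N, (Fintype.card ι * (2 * C / N) : ℝ)).trans (le_of_eq ?_))
      · simpa only [mul_assoc] using h u hu (fun a => Ψ (a * v ^ (k : ℕ))) C fun _ => hC _
      · simp only [Finset.sum_const, Finset.card_univ, Fintype.card_fin, nsmul_eq_mul]
        push_cast
        ring

theorem exists_approx {A : Type*} [CommCStarAlgebra A] {Y : Type*} [NormedAddCommGroup Y]
    [NormedSpace ℂ Y] (M : BimoduleL A Y) (D : A →L[ℂ] Y)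
    (hD : ∀ a b, D (a * b) = M.l a (D b) + M.r b (D a)) (F : Finset (unitary A)) {ε : ℝ}
    (hε : 0 < ε) : ∃ ψ : Y, ‖ψ‖ ≤ ‖D 1 - M.r 1 (D 1)‖ + ‖M.r‖ * ‖D‖ ∧
      ∀ h ∈ F, ‖D h - (M.l h ψ - M.r h ψ)‖ ≤ ε := by
  have hu : ∀ g : unitary A, ‖(g : A)‖ ≤ 1 := fun g => by
    rcases subsingleton_or_nontrivial A with _ | _
    · simp [Subsingleton.elim (g : A) 0]
    · exact (CStarRing.norm_coe_unitary g).le
  let Ψ : unitary A → Y := fun g => M.r (star (g : A)) (D g)
  have hΨ : ∀ g, ‖Ψ g‖ ≤ ‖M.r‖ * ‖D‖ := fun g => by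
    refine (M.r.le_opNorm₂ _ _).trans (mul_le_mul ?_ ?_ (norm_nonneg _) (norm_nonneg _))
    · exact mul_le_of_le_one_right (norm_nonneg _) (by simpa using hu g)
    · exact (D.le_opNorm _).trans (mul_le_of_le_one_right (norm_nonneg _) (hu g))
  obtain ⟨N, hN⟩ := exists_nat_gt (‖M.r‖ * (2 * (‖M.r‖ * ‖D‖)) / ε)
  have hN0 : (0 : ℝ) < N := lt_of_le_of_lt (by positivity) hN
  obtain ⟨ι, _, _, g, hg⟩ := folner (Y := Y) F (N := N) (by exact_mod_cast hN0)
  have hc0 : (0 : ℝ) < Fintype.card ι := by exact_mod_cast Fintype.card_pos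
  let c : ℂ := ((Fintype.card ι : ℝ) : ℂ)⁻¹
  have hc : c * (Fintype.card ι : ℂ) = 1 := inv_mul_cancel₀ (by exact_mod_cast hc0.ne')
  have hcn : ‖c‖ = (Fintype.card ι : ℝ)⁻¹ := by simp [c]
  let φ : Y := c • ∑ i, Ψ (g i)
  let η : Y := D 1 - M.r 1 (D 1)
  have hφ1 : M.r 1 φ = φ := by
    simp only [φ, map_smul, map_sum, Ψ, ← M.r_mul, mul_one]
  refine ⟨η - φ, (norm_sub_le _ _).trans (add_le_add le_rfl ?_), fun h hh => ?_⟩
  · simp only [φ]
    rw [norm_smul, hcn, inv_mul_le_iff₀ hc0]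
    refine (norm_sum_le _ _).trans ((Finset.sum_le_sum fun i _ => hΨ (g i)).trans ?_)
    simp
  have e1 : ∀ g : unitary A, M.r h (Ψ (h * g)) = M.l h (Ψ g) + M.r 1 (D h) := by
    intro g
    simp only [Ψ, Submonoid.coe_mul]
    rw [hD, map_add, map_add, ← M.r_mul, ← M.r_mul, ← M.r_mul, ← M.l_r, star_mul, mul_assoc,
      Unitary.star_mul_self_of_mem h.2, mul_one, Unitary.mul_star_self_of_mem g.2]
  have e2 : M.r h (c • ∑ i, Ψ (h * g i)) = M.l h φ + M.r 1 (D h) := by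
    simp only [φ, map_smul, map_sum, e1, Finset.sum_add_distrib, smul_add, Finset.sum_const,
      Finset.card_univ]
    rw [← Nat.cast_smul_eq_nsmul ℂ, smul_smul, hc, one_smul]
  have e4 : D h = M.l h (D 1) + M.r 1 (D h) := by
    conv_lhs => rw [← mul_one (h : A), hD]
  have e5 : η = M.l 1 (D 1) := by
    have := hD 1 1
    rw [mul_one] at this
    exact sub_eq_of_eq_add this
  have e6 : M.l h η = M.l h (D 1) := by rw [e5, ← M.l_mul, mul_one]
  have e7 : M.r h η = 0 := by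
    simp only [η]
    rw [map_sub, ← M.r_mul, one_mul, sub_self]
  have e8 : D h - (M.l h (η - φ) - M.r h (η - φ))
      = M.r h (c • (∑ i, Ψ (h * g i) - ∑ i, Ψ (g i))) := by
    rw [smul_sub, map_sub (M.r h) (c • _) (c • _), e2, map_sub (M.l h) η, map_sub (M.r h) η, e6,
      e7]
    conv_lhs => rw [e4]
    simp only [φ]
    abel
  rw [e8]
  refine (M.r.le_opNorm₂ _ _).trans ?_
  have h1 : ‖c • (∑ i, Ψ (h * g i) - ∑ i, Ψ (g i))‖ ≤ 2 * (‖M.r‖ * ‖D‖) / N := by
    rw [norm_smul, hcn, inv_mul_le_iff₀ hc0]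
    exact hg h hh Ψ _ hΨ
  refine (mul_le_mul (mul_le_of_le_one_right (norm_nonneg _) (hu h)) h1 (norm_nonneg _)
    (norm_nonneg _)).trans ?_
  rw [div_lt_iff₀ hε] at hN
  rw [← mul_div_assoc, div_le_iff₀ hN0]
  linarith

theorem amenable_comm (A : Type u) [CommCStarAlgebra A] : IsAmenable.{u, v} A := by
  classical
  intro X _ _ _ M₀ D₀ hD₀ hf
  let M := M₀.toL
  let D : A →L[ℂ] X →L[ℂ] ℂ := hD₀.toContinuousLinearMap
  have hD : ∀ a b, D (a * b) = M.dual.l a (D b) + M.dual.r b (D a) := fun a b => by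
    ext x
    exact hf a b x
  let C : ℝ := ‖D 1 - M.dual.r 1 (D 1)‖ + ‖M.dual.r‖ * ‖D‖
  let K : unitary A × ℕ → Set (WeakDual ℂ X) := fun s =>
    {ψ | ∀ x, ‖D s.1 x - (ψ (M.r s.1 x) - ψ (M.l s.1 x))‖ ≤ 1 / ((s.2 : ℝ) + 1) * ‖x‖}
  have hK : ∀ s, IsClosed (K s) := fun s => by
    simp only [K, ofPred_forall]
    exact isClosed_iInter fun x => isClosed_le (continuous_const.sub
      ((WeakDual.eval_continuous _).sub (WeakDual.eval_continuous _))).norm continuous_const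
  obtain ⟨ψ, -, hψ⟩ := (WeakDual.isCompact_closedBall (𝕜 := ℂ) (E := X) 0 C).inter_iInter_nonempty
    K hK fun F => by
      obtain ⟨ψ, h1, h2⟩ := exists_approx M.dual D hD (F.image Prod.fst)
        (ε := 1 / (((F.sup Prod.snd : ℕ) : ℝ) + 1)) (by positivity)
      refine ⟨StrongDual.toWeakDual ψ, by simpa using h1, ?_⟩
      simp only [mem_iInter]
      intro s hs x
      refine (ContinuousLinearMap.le_opNorm (D s.1 - (M.dual.l s.1 ψ - M.dual.r s.1 ψ)) x).trans
        (mul_le_mul_of_nonneg_right ((h2 _ (Finset.mem_image_of_mem _ hs)).trans ?_)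
          (norm_nonneg _))
      have : (s.2 : ℝ) ≤ (F.sup Prod.snd : ℕ) := by exact_mod_cast Finset.le_sup hs
      gcongr
  let ψ' : X →L[ℂ] ℂ := WeakDual.toStrongDual ψ
  let E : A →L[ℂ] (X →L[ℂ] ℂ) := D - (M.dual.l.flip ψ' - M.dual.r.flip ψ')
  have htop : ⊤ ≤ E.ker := by
    rw [← CStarAlgebra.span_unitary, Submodule.span_le]
    intro h hh
    rw [SetLike.mem_coe, LinearMap.mem_ker]
    ext x
    change D h x - (ψ (M.r h x) - ψ (M.l h x)) = 0
    rw [← norm_le_zero_iff]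
    refine ge_of_tendsto' (x := Filter.atTop) (by
      simpa using tendsto_one_div_add_atTop_nhds_zero_nat.mul_const ‖x‖) fun n : ℕ => ?_
    simpa using mem_iInter.1 hψ (⟨h, hh⟩, n) x
  refine ⟨ψ', ψ'.isBoundedLinearMap, fun a x => ?_⟩
  have ha : a ∈ E.ker := htop Submodule.mem_top
  rw [LinearMap.mem_ker] at ha
  have ha' : D a = M.dual.l a ψ' - M.dual.r a ψ' := sub_eq_zero.1 ha
  exact DFunLike.congr_fun ha' x

end Pool.Agent.Work.MP_92c8f1_an.Hedge
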