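import Pool.Agent.Work.MP_92c8f1_an.Delta
import Mathlib.LinearAlgebra.Multilinear.Curry

/-!
The algebraic obstruction: the simplicial circle has a non-zero first cohomology.
-/

namespace Pool.Agent.Work.MP_92c8f1_an.Hedge

open Pool.Agent.Work.MP_92c8f1_an Function

/-- the cyclic merging maps -/
def dd {k : ℕ} (j : Fin (k + 2)) (i : Fin (k + 2)) : Fin (k + 1) :=
  ⟨if (j : ℕ) ≤ k then (if (i : ℕ) ≤ j then i else i - 1) else (if (i : ℕ) = k + 1 then 0 else i),
    by have := i.2; have := j.2; split_ifs <;> omega⟩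

theorem dd_val {k : ℕ} (j i : Fin (k + 2)) : (dd j i : ℕ) =
    if (j : ℕ) ≤ k then (if (i : ℕ) ≤ j then (i : ℕ) else i - 1)
      else (if (i : ℕ) = k + 1 then 0 else i) := rfl

theorem dd_zero {k : ℕ} (j : Fin (k + 2)) : dd j 0 = 0 := by
  apply Fin.ext
  simp [dd_val]

theorem dd_merge {k : ℕ} (j i i' : Fin (k + 2)) (h : dd j i = dd j i') (hne : i ≠ i') :
    dd j i = dd j j := by
  have h1 := congrArg Fin.val h
  have h2 : (i : ℕ) ≠ i' := fun e => hne (Fin.ext e)
  have := i.2; have := j.2; have := i'.2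
  apply Fin.ext
  simp only [dd_val] at h1 ⊢
  split_ifs at h1 ⊢ <;> omega

theorem sum_dd_io {A : Type*} [CommMonoid A] {k : ℕ} (χ : Fin (k + 1) → A → ℂ)
    (hχ : ∀ j a b, χ j (a * b) = χ j a * χ j b) (a : Fin (k + 1) → A) :
    ∑ j : Fin (k + 2), (-1 : ℂ) ^ (j : ℕ) * ∏ i : Fin (k + 1), χ (dd j i.succ) (a i)
      = cob (χ 0) (fun c : Fin k → A => ∏ i, χ i.succ (c i)) a := by
  rw [Fin.sum_univ_succ, Fin.sum_univ_castSucc]
  unfold cob cobL
  rw [← add_assoc]
  congr 1
  · congr 1
    · have : ∀ i : Fin (k + 1), dd (0 : Fin (k + 2)) i.succ = i := fun i => by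
        apply Fin.ext; simp [dd_val]
      simp only [this, Fin.val_zero, pow_zero, one_mul, smul_eq_mul]
      rw [Fin.prod_univ_succ]
    · refine Finset.sum_congr rfl fun i _ => ?_
      rw [smul_eq_mul, Fin.prod_univ_succAbove _ i.succ]
      simp only [Fin.val_succ, Fin.val_castSucc]
      congr 1
      have e1 : dd i.castSucc.succ i.succ.succ = i.succ := by
        apply Fin.ext
        have := i.2
        simp only [dd_val, Fin.val_succ, Fin.val_castSucc]
        split_ifs <;> omega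
      have e2 : ∀ m : Fin k, dd i.castSucc.succ (i.succ.succAbove m).succ = m.succ := fun m => by
        apply Fin.ext
        have := i.2
        simp only [dd_val, Fin.val_succ, Fin.val_castSucc, Fin.succAbove, Fin.lt_def]
        split_ifs <;> (simp_all; try omega)
      have e3 : ∀ m : Fin k, χ m.succ (Fin.contractNth i.castSucc (· * ·) a m)
          = χ m.succ (a (i.succ.succAbove m)) * if m = i then χ i.succ (a i.succ) else 1 := by
        intro m
        rcases lt_trichotomy (m : ℕ) i with h | h | h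
        · rw [Fin.contractNth_apply_of_lt _ _ _ _ (by simpa using h), if_neg (by omega), mul_one,
            Fin.succAbove_of_castSucc_lt _ _ (by simp [Fin.lt_def]; omega)]
        · obtain rfl : m = i := Fin.ext h
          rw [Fin.contractNth_apply_of_eq _ _ _ _ (by simp), if_pos rfl, hχ,
            Fin.succAbove_of_castSucc_lt _ _ (by simp [Fin.lt_def])]
        · rw [Fin.contractNth_apply_of_gt _ _ _ _ (by simpa using h), if_neg (by omega), mul_one,
            Fin.succAbove_of_le_castSucc _ _ (by simp [Fin.le_def]; omega)]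
      simp only [e1, e2, e3, Finset.prod_mul_distrib, Finset.prod_ite_eq', Finset.mem_univ,
        if_true]
      ring
  · have e1 : ∀ m : Fin k, dd (Fin.last k).succ m.castSucc.succ = m.succ := fun m => by
      apply Fin.ext
      have := m.2
      simp only [dd_val, Fin.val_succ, Fin.val_castSucc, Fin.val_last]
      split_ifs <;> omega
    have e2 : dd (Fin.last k).succ (Fin.last k).succ = 0 := by
      apply Fin.ext
      simp [dd_val]
    rw [Fin.prod_univ_castSucc]
    simp only [e1, e2, Fin.val_succ, Fin.val_last, smul_eq_mul]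
    ring

theorem dd_dd {k : ℕ} (i : Fin (k + 2)) (j : Fin (k + 3)) (i' : Fin (k + 2)) (j' : Fin (k + 3))
    (h : (i : ℕ) < j) (h1 : (i' : ℕ) + 1 = j) (h2 : (j' : ℕ) = i) :
    dd i ∘ dd j = dd i' ∘ dd j' := by
  funext m
  apply Fin.ext
  have := i.2; have := j.2; have := m.2
  simp only [comp, dd_val]
  lia

theorem sum_dd_dd {k : ℕ} (G : (Fin (k + 3) → Fin (k + 1)) → ℂ) :
    ∑ i : Fin (k + 2), (-1 : ℂ) ^ (i : ℕ) * ∑ j : Fin (k + 3), (-1 : ℂ) ^ (j : ℕ) * G (dd i ∘ dd j)
      = 0 := by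
  simp only [Finset.mul_sum]
  rw [← Finset.sum_product']
  let g : Fin (k + 2) × Fin (k + 3) → Fin (k + 2) × Fin (k + 3) := fun p =>
    if h : (p.1 : ℕ) < p.2 then (⟨p.2 - 1, by have := p.2.2; omega⟩, p.1.castSucc)
    else (⟨p.2, by have := p.1.2; omega⟩, p.1.succ)
  refine Finset.sum_involution (fun p _ => g p) ?_ ?_ (fun _ _ => by simp) ?_
  · rintro ⟨i, j⟩ -
    by_cases h : (i : ℕ) < j
    · simp only [g, dif_pos h, Fin.val_castSucc]
      rw [dd_dd i j ⟨j - 1, by have := j.2; omega⟩ i.castSucc h (by simp; omega) (by simp)]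
      obtain ⟨t, ht⟩ : ∃ t, (j : ℕ) = t + 1 := ⟨j - 1, by omega⟩
      simp only [ht, Nat.add_sub_cancel]
      ring
    · simp only [g, dif_neg h, Fin.val_succ]
      rw [dd_dd ⟨j, by have := i.2; omega⟩ i.succ i j (by simp; omega) (by simp) (by simp)]
      ring
  · rintro ⟨i, j⟩ - - e
    by_cases h : (i : ℕ) < j
    · simp only [g, dif_pos h, Prod.mk.injEq, Fin.ext_iff, Fin.val_castSucc] at e
      omega
    · simp only [g, dif_neg h, Prod.mk.injEq, Fin.ext_iff, Fin.val_succ] at e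
      omega
  · rintro ⟨i, j⟩ -
    by_cases h : (i : ℕ) < j
    · have h' : ¬ ((j : ℕ) - 1 < i) := by omega
      simp only [g, dif_pos h, Fin.val_castSucc, dif_neg h', Prod.mk.injEq, Fin.ext_iff,
        Fin.val_succ, true_and]
      omega
    · have h' : (j : ℕ) < i + 1 := by omega
      simp [g, dif_neg h, h']

/-- the boundary operator on forms -/
noncomputable def bb {p q : ℕ} (N : (Fin p → Fin (q + 2) → ℂ) → ℂ) (f : Fin p → Fin (q + 1) → ℂ) :
    ℂ := ∑ j : Fin (q + 2), (-1 : ℂ) ^ (j : ℕ) * N fun i => f i ∘ dd j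

/-- the tautological form -/
noncomputable def io (p : ℕ) (f : Fin p → Fin (p + 1) → ℂ) : ℂ := ∏ i, f i i.succ

theorem bb_io {k : ℕ} (f : Fin (k + 1) → Fin (k + 1) → ℂ) :
    bb (io (k + 1)) f = cob (fun g => g 0) (io k) f :=
  sum_dd_io (A := Fin (k + 1) → ℂ) (fun j g => g j) (fun _ _ _ => rfl) f

theorem cob_sum {A : Type*} [CommMonoid A] (χ : A → ℂ) {ι : Type*} (s : Finset ι) {n : ℕ}
    (c : ι → ℂ) (F : ι → (Fin n → A) → ℂ) (a : Fin (n + 1) → A) :
    cob χ (fun b => ∑ j ∈ s, c j * F j b) a = ∑ j ∈ s, c j * cob χ (F j) a := by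
  classical
  induction s using Finset.induction_on with
  | empty => simp [cob, cobL]
  | insert j s hj ih =>
    simp only [Finset.sum_insert hj]
    rw [cob_add, ih]
    congr 1
    exact cob_smul χ (c j) (F j) a

theorem cob_comp {A B : Type*} [CommMonoid A] [CommMonoid B] (χ : B → ℂ) (T : A → B)
    (hT : ∀ a b, T (a * b) = T a * T b) {n : ℕ} (F : (Fin n → B) → ℂ) (a : Fin (n + 1) → A) :
    cob (fun x => χ (T x)) (fun b => F fun i => T (b i)) a = cob χ F fun i => T (a i) := by
  unfold cob cobL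
  congr 2
  refine Finset.sum_congr rfl fun i _ => ?_
  congr 1
  beta_reduce
  congr 1
  funext m
  simp only [Fin.contractNth]
  split_ifs <;> simp [hT]

theorem cob_bb {p q : ℕ} (N : (Fin p → Fin (q + 2) → ℂ) → ℂ) (f : Fin (p + 1) → Fin (q + 1) → ℂ) :
    cob (fun g => g 0) (bb N) f = bb (cob (fun g => g 0) N) f := by
  unfold bb
  rw [cob_sum]
  refine Finset.sum_congr rfl fun j _ => ?_
  congr 1
  have := cob_comp (A := Fin (q + 1) → ℂ) (B := Fin (q + 2) → ℂ) (fun g => g 0)
    (fun g => g ∘ dd j) (fun _ _ => rfl) N f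
  simpa only [comp, dd_zero] using this

theorem bb_bb {p q : ℕ} (N : (Fin p → Fin (q + 3) → ℂ) → ℂ) (f : Fin p → Fin (q + 1) → ℂ) :
    bb (bb N) f = 0 :=
  sum_dd_dd fun π => N fun i => f i ∘ π

theorem contract_cons {A : Type*} [Mul A] {n : ℕ} (e : A) (a : Fin (n + 1) → A) (i : Fin n) :
    Fin.contractNth i.succ.castSucc (· * ·) (Fin.cons e a : Fin (n + 2) → A)
      = Fin.cons e (Fin.contractNth i.castSucc (· * ·) a) := by
  funext m
  refine Fin.cases ?_ (fun m => ?_) m
  · rw [Fin.contractNth_apply_of_lt _ _ _ _ (by simp)]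
    simp
  · simp only [Fin.cons_succ]
    rcases lt_trichotomy (m : ℕ) i with h | h | h
    · rw [Fin.contractNth_apply_of_lt _ _ _ _ (by simpa using h),
        Fin.contractNth_apply_of_lt _ _ _ _ (by simpa using h), ← Fin.succ_castSucc, Fin.cons_succ]
    · rw [Fin.contractNth_apply_of_eq _ _ _ _ (by simpa using h),
        Fin.contractNth_apply_of_eq _ _ _ _ (by simpa using h), ← Fin.succ_castSucc,
        Fin.cons_succ, Fin.cons_succ]
    · rw [Fin.contractNth_apply_of_gt _ _ _ _ (by simpa using h),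
        Fin.contractNth_apply_of_gt _ _ _ _ (by simpa using h), Fin.cons_succ]

theorem cob_curry {p q : ℕ} (N : MultilinearMap ℂ (fun _ : Fin (p + 1) => Fin (q + 1) → ℂ) ℂ)
    (hN : ∀ f, cob (fun g => g 0) N f = 0) (f : Fin (p + 1) → Fin (q + 1) → ℂ) :
    cob (fun g => g 0) (N.curryLeft (Pi.single 0 1)) f = N f := by
  have h := hN (Fin.cons (Pi.single 0 1) f)
  unfold cob cobL at h ⊢
  rw [Fin.sum_univ_succ] at h
  simp only [contract_cons, Fin.cons_zero, Fin.cons_succ, Pi.single_eq_same, one_smul,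
    Fin.val_succ, Fin.val_zero] at h
  have e0 : Fin.contractNth (0 : Fin (p + 1)).castSucc (· * ·)
      (Fin.cons (Pi.single 0 1) f : Fin (p + 2) → Fin (q + 1) → ℂ)
      = Fin.cons (f 0 0 • Pi.single 0 1) fun i => f i.succ := by
    funext m
    refine Fin.cases ?_ (fun m => ?_) m
    · rw [Fin.contractNth_apply_of_eq _ _ _ _ (by simp)]
      funext t
      by_cases ht : t = 0
      · subst ht; simp
      · simp [ht]
    · rw [Fin.contractNth_apply_of_gt _ _ _ _ (by simp)]
      simp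
  have e1 : (fun i : Fin (p + 1) => (Fin.cons (Pi.single 0 1) f : Fin (p + 2) → Fin (q + 1) → ℂ)
      i.castSucc) = Fin.cons (Pi.single 0 1) fun i : Fin p => f i.castSucc := by
    funext m
    refine Fin.cases ?_ (fun m => ?_) m
    · simp
    · rw [← Fin.succ_castSucc, Fin.cons_succ, Fin.cons_succ]
  have e2 : (Fin.cons (Pi.single 0 1) f : Fin (p + 2) → Fin (q + 1) → ℂ) (Fin.last (p + 1))
      = f (Fin.last p) := by rw [← Fin.succ_last, Fin.cons_succ]
  rw [e0, e1, e2, N.cons_smul] at h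
  simp only [MultilinearMap.curryLeft_apply, smul_eq_mul] at h ⊢
  have e3 : ∑ i : Fin p, (-1 : ℂ) ^ ((i : ℕ) + 1 + 1)
        * N (Fin.cons (Pi.single 0 1) (Fin.contractNth i.castSucc (· * ·) f))
      = - ∑ i : Fin p, (-1 : ℂ) ^ ((i : ℕ) + 1)
        * N (Fin.cons (Pi.single 0 1) (Fin.contractNth i.castSucc (· * ·) f)) := by
    rw [← Finset.sum_neg_distrib]
    exact Finset.sum_congr rfl fun i _ => by ring
  rw [e3] at h
  linear_combination -h

/-- the descended form -/
noncomputable def desc {p : ℕ} (N : MultilinearMap ℂ (fun _ : Fin (p + 1) => Fin (p + 2) → ℂ) ℂ) :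
    MultilinearMap ℂ (fun _ : Fin p => Fin (p + 1) → ℂ) ℂ :=
  (MultilinearMap.mkPiAlgebra ℂ (Fin p) ℂ).compLinearMap (fun i => LinearMap.proj i.succ)
    - ∑ j : Fin (p + 2), (-1 : ℂ) ^ (j : ℕ) •
      (N.curryLeft (Pi.single 0 1)).compLinearMap fun _ => LinearMap.funLeft ℂ ℂ (dd j)

theorem desc_apply {p : ℕ} (N : MultilinearMap ℂ (fun _ : Fin (p + 1) => Fin (p + 2) → ℂ) ℂ) :
    (desc N : _ → ℂ) = fun f => io p f - bb (N.curryLeft (Pi.single 0 1)) f := by
  funext f
  simp [desc, io, bb]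
  rfl

theorem cob_desc {p : ℕ} (N : MultilinearMap ℂ (fun _ : Fin (p + 1) => Fin (p + 2) → ℂ) ℂ)
    (hN : ∀ f, cob (fun g => g 0) N f = 0) (hb : ∀ f, bb N f = bb (io (p + 1)) f) (f) :
    cob (fun g => g 0) (desc N) f = 0 := by
  rw [desc_apply, cob_sub, cob_bb, funext (cob_curry N hN), hb, bb_io, sub_self]

theorem no_form : ∀ (k : ℕ) (N : MultilinearMap ℂ (fun _ : Fin (k + 2) => Fin (k + 3) → ℂ) ℂ),
    (∀ f, cob (fun g => g 0) N f = 0) → (∀ f, bb N f = bb (io (k + 2)) f) → False := by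
  intro k
  induction k with
  | zero =>
    intro N hN hb
    have h := cob_desc N hN hb (fun _ => Pi.single 1 1)
    have e : ∀ i : Fin 1, Fin.contractNth i.castSucc (· * ·)
        (fun _ : Fin 2 => (Pi.single 1 1 : Fin 2 → ℂ)) = fun _ => Pi.single 1 1 := by
      intro i
      funext m
      simp only [Fin.contractNth]
      split_ifs
      · rfl
      · funext t; fin_cases t <;> simp
      · rfl
    unfold cob cobL at h
    simp only [e] at h
    rw [desc_apply] at h
    let ρ : (Fin 3 → ℂ) →ₗ[ℂ] ℂ :=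
      (N.curryLeft (Pi.single 0 1)).toLinearMap (fun _ => 0) 0
    have hρ : ∀ g, N.curryLeft (Pi.single 0 1) (fun _ => g) = ρ g := fun g => by
      simp only [ρ, MultilinearMap.toLinearMap_apply]
      congr 1
      funext i
      rw [Subsingleton.elim i 0, update_self]
    have d0 : (Pi.single 1 1 : Fin 2 → ℂ) ∘ dd (0 : Fin 3) = Pi.single 2 1 := by
      funext t; fin_cases t <;> simp [dd]
    have d1 : (Pi.single 1 1 : Fin 2 → ℂ) ∘ dd (1 : Fin 3) = Pi.single 1 1 + Pi.single 2 1 := by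
      funext t; fin_cases t <;> simp [dd]
    have d2 : (Pi.single 1 1 : Fin 2 → ℂ) ∘ dd (2 : Fin 3) = Pi.single 1 1 := by
      funext t; fin_cases t <;> simp [dd]
    simp only [bb, io, hρ] at h
    have h3 : ∑ x : Fin (0 + 1 + 2), (-1 : ℂ) ^ (x : ℕ) * ρ ((Pi.single 1 1 : Fin 2 → ℂ) ∘ dd x)
        = 0 := by
      change ∑ x : Fin 3, (-1 : ℂ) ^ (x : ℕ) * ρ ((Pi.single 1 1 : Fin 2 → ℂ) ∘ dd x) = 0
      rw [Fin.sum_univ_three, d0, d1, d2, map_add]
      simp
    rw [h3] at h
    simp at h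
  | succ k ih =>
    intro N hN hb
    refine ih (desc N) (cob_desc N hN hb) fun f => ?_
    rw [desc_apply]
    have := bb_bb (N.curryLeft (Pi.single 0 1)) f
    unfold bb at this ⊢
    simp only [mul_sub, Finset.sum_sub_distrib, this, sub_zero]

end Pool.Agent.Work.MP_92c8f1_an.Hedge
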