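import Pool.Agent.Work.MP_92c8f1_an.Hedge.Alg
import Pool.Agent.Work.MP_92c8f1_an.Tri
import Mathlib.Topology.DerivedSet
import Mathlib.Topology.UrysohnsLemma
import Mathlib.Topology.ContinuousMap.Compact
import Mathlib.Data.Pi.Interval

/-!
The online chain of points and bumps.
-/

namespace Pool.Agent.Work.MP_92c8f1_an.Hedge

open Pool.Agent.Work.MP_92c8f1_an Function Filter Topology Set

/-- every coordinate depends on one of the two indices only -/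
def Separated {Ω : Type*} {n : ℕ} (x : ℕ → ℕ → Fin n → Ω) : Prop :=
  ∀ j, (∀ k l l', x k l j = x k l' j) ∨ ∀ k k' l, x k l j = x k' l j

variable {Ω : Type*} [TopologicalSpace Ω] [CompactSpace Ω]

/-- the point values of a splitting -/
structure Good (Ω : Type*) [TopologicalSpace Ω] [CompactSpace Ω] (k : ℕ) where
  /-- the values -/
  val : (Fin (k + 2) → Ω) → MultilinearMap ℂ (fun _ : Fin (k + 1) => C(Ω, ℂ)) ℂ
  /-- the bound -/
  C : ℝ
  C_nonneg : 0 ≤ C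
  cont : ∀ a, Continuous fun x => val x a
  bound : ∀ x a, ‖val x a‖ ≤ C * ∏ i, ‖a i‖
  test : ∀ a, (∀ i, ‖a i‖ ≤ 1) → ∀ m : ℕ, 0 < m → ∀ x : ℕ → ℕ → Fin (k + 2) → Ω, Separated x →
    ‖testF (m ^ 2) fun u w => val (x u w) a‖ ≤ C * (4 * m)
  coc : ∀ x a, cob (fun b : C(Ω, ℂ) => b (x 0)) (val x) a = 0
  bdry : ∀ (y : Fin (k + 1) → Ω) a, ∑ j : Fin (k + 2), (-1 : ℂ) ^ (j : ℕ) * val (y ∘ dd j) a
    = ∑ j : Fin (k + 2), (-1 : ℂ) ^ (j : ℕ) * ∏ i, a i (y (dd j i.succ))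

/-- values in the unit interval -/
def Unit01 (ψ : C(Ω, ℂ)) : Prop := ∀ ω, ∃ θ : ℝ, 0 ≤ θ ∧ θ ≤ 1 ∧ ψ ω = θ

omit [CompactSpace Ω] in
theorem Unit01.norm_apply_le {ψ : C(Ω, ℂ)} (h : Unit01 ψ) (ω : Ω) : ‖ψ ω‖ ≤ 1 := by
  obtain ⟨θ, h0, h1, e⟩ := h ω
  rw [e, Complex.norm_real, Real.norm_of_nonneg h0]
  exact h1

theorem Unit01.norm_le {ψ : C(Ω, ℂ)} (h : Unit01 ψ) : ‖ψ‖ ≤ 1 :=
  (ContinuousMap.norm_le _ zero_le_one).2 h.norm_apply_le

variable [T2Space Ω]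

theorem exists_bump0 {c : Ω} {V : Set Ω} (hV : IsOpen V) (hc : c ∈ V) :
    ∃ ψ : C(Ω, ℂ), Unit01 ψ ∧ (∀ ω ∉ V, ψ ω = 0) ∧ ∀ᶠ ω in 𝓝 c, ψ ω = 1 := by
  obtain ⟨F, hF, hFc, hFV⟩ := exists_mem_nhds_isClosed_subset (hV.mem_nhds hc)
  obtain ⟨f, h0, h1, h01⟩ := exists_continuous_zero_one_of_isClosed hV.isClosed_compl hFc
    (disjoint_compl_left_iff_subset.2 hFV)
  refine ⟨⟨fun ω => (f ω : ℂ), by fun_prop⟩, fun ω => ⟨f ω, (h01 ω).1, (h01 ω).2, rfl⟩,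
    fun ω hω => ?_, ?_⟩
  · simp [h0 hω]
  · filter_upwards [hF] with ω hω
    simp [h1 hω]

theorem exists_bump {Λ : Type*} {S : Set Λ} (hS : S.Finite) (lam : Λ → C(Ω, ℂ) →ₗ[ℂ] ℂ)
    {C : ℝ} (hC : 0 ≤ C) (hlam : ∀ l ∈ S, ∀ ψ, ‖lam l ψ‖ ≤ C * ‖ψ‖) {U D : Set Ω} (hU : IsOpen U)
    (hD : (U ∩ D).Infinite) {ε : ℝ} (hε : 0 < ε) :
    ∃ c ∈ U ∩ D, ∃ ψ : C(Ω, ℂ), Unit01 ψ ∧ (∀ ω ∉ U, ψ ω = 0) ∧ (∀ᶠ ω in 𝓝 c, ψ ω = 1) ∧
      ∀ l ∈ S, ‖lam l ψ‖ ≤ ε := by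
  classical
  obtain ⟨N, hN⟩ := exists_nat_gt (hS.toFinset.card * C / ε)
  rw [div_lt_iff₀ hε] at hN
  obtain ⟨T, hT, hTN⟩ := hD.exists_subset_card_eq N
  obtain ⟨V, hV, hdis⟩ := T.finite_toSet.t2_separation
  have : ∀ c : Ω, ∃ ψ : C(Ω, ℂ), c ∈ T →
      Unit01 ψ ∧ (∀ ω ∉ V c ∩ U, ψ ω = 0) ∧ ∀ᶠ ω in 𝓝 c, ψ ω = 1 := fun c => by
    by_cases hc : c ∈ T
    · obtain ⟨ψ, h⟩ := exists_bump0 ((hV c).2.inter hU) ⟨(hV c).1, (hT hc).1⟩
      exact ⟨ψ, fun _ => h⟩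
    · exact ⟨0, fun h => absurd h hc⟩
  choose ψ hψ using this
  have hsum : ∀ l ∈ S, ∑ c ∈ T, ‖lam l (ψ c)‖ ≤ C := by
    intro l hl
    choose u hu hu' using fun c => Complex.exists_norm_eq_mul_self (lam l (ψ c))
    have e : ((∑ c ∈ T, ‖lam l (ψ c)‖ : ℝ) : ℂ) = lam l (∑ c ∈ T, u c • ψ c) := by
      simp [map_sum, hu']
    have hn : ‖∑ c ∈ T, u c • ψ c‖ ≤ 1 := by
      rw [ContinuousMap.norm_le _ zero_le_one]
      intro ω
      rw [ContinuousMap.sum_apply]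
      by_cases hω : ∃ c ∈ T, ω ∈ V c
      · obtain ⟨c, hc, hωc⟩ := hω
        rw [Finset.sum_eq_single_of_mem c hc fun c' hc' hne => ?_]
        · simpa [hu] using (hψ c hc).1.norm_apply_le ω
        · have : ω ∉ V c' ∩ U := fun h =>
            Set.disjoint_left.1 (hdis hc' hc hne) h.1 hωc
          simp [(hψ c' hc').2.1 ω this]
      · rw [Finset.sum_eq_zero fun c hc => ?_]
        · simp
        · have : ω ∉ V c ∩ U := fun h => hω ⟨c, hc, h.1⟩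
          simp [(hψ c hc).2.1 ω this]
    have h1 := hlam l hl (∑ c ∈ T, u c • ψ c)
    rw [← e, Complex.norm_real, Real.norm_of_nonneg (by positivity)] at h1
    exact h1.trans (mul_le_of_le_one_right hC hn)
  by_contra hcon
  push Not at hcon
  have h1 : ∀ c ∈ T, ε ≤ ∑ l ∈ hS.toFinset, ‖lam l (ψ c)‖ := fun c hc => by
    obtain ⟨l, hl, h⟩ := hcon c (hT hc) (ψ c) (hψ c hc).1
      (fun ω hω => (hψ c hc).2.1 ω fun h => hω h.2) (hψ c hc).2.2
    exact h.le.trans (Finset.single_le_sum (f := fun l => ‖lam l (ψ c)‖)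
      (fun _ _ => norm_nonneg _) (hS.mem_toFinset.2 hl))
  have h2 := Finset.sum_le_sum h1
  rw [Finset.sum_comm, Finset.sum_const, hTN, nsmul_eq_mul] at h2
  have h3 := Finset.sum_le_sum fun l (hl : l ∈ hS.toFinset) => hsum l (hS.mem_toFinset.1 hl)
  rw [Finset.sum_const, nsmul_eq_mul] at h3
  linarith

omit [T2Space Ω] in
theorem exists_nhd {k : ℕ} (G : Good Ω k) (p : ℕ → Ω) (φ : ℕ → C(Ω, ℂ)) (t : ℕ) {ε : ℝ}
    (hε : 0 < ε) : ∃ W ∈ 𝓝 (p t), ∀ (s : Fin (k + 1) → ℕ) (x : Fin (k + 2) → ℕ)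
      (z : Fin (k + 2) → Ω), (∀ i, s i ≤ t) → (∀ j, x j ≤ t) →
      (∀ j, z j = p (x j) ∨ (x j = t ∧ z j ∈ W)) →
      ‖G.val z (fun i => φ (s i)) - G.val (fun j => p (x j)) (fun i => φ (s i))‖ ≤ ε := by
  have : ∀ q : (Fin (k + 1) → ℕ) × (Fin (k + 2) → ℕ), ∃ W ∈ 𝓝 (p t), ∀ z : Fin (k + 2) → Ω,
      (∀ j, z j = p (q.2 j) ∨ (q.2 j = t ∧ z j ∈ W)) →
      ‖G.val z (fun i => φ (q.1 i)) - G.val (fun j => p (q.2 j)) (fun i => φ (q.1 i))‖ ≤ ε := by
    rintro ⟨s, x⟩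
    have h1 := ((G.cont fun i => φ (s i)).tendsto fun j => p (x j)).eventually
      (Metric.closedBall_mem_nhds _ hε)
    rw [nhds_pi] at h1
    obtain ⟨B, hB, hsub⟩ := mem_pi'.1 h1 |>.imp fun _ h => h
    obtain ⟨hB', hsub⟩ := hsub
    refine ⟨⋂ j, {ω | x j = t → ω ∈ hB j}, iInter_mem.2 fun j => ?_, fun z hz => ?_⟩
    · by_cases h : x j = t
      · exact mem_of_superset (h ▸ hB' j) fun ω hω _ => hω
      · simp [h]
    · have := hsub (show z ∈ (B : Set _).pi hB from fun j _ => by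
        rcases hz j with h | ⟨h, h'⟩
        · rw [h]; exact mem_of_mem_nhds (hB' j)
        · exact mem_iInter.1 h' j h)
      simpa [dist_eq_norm] using this
  choose W hW hW' using this
  classical
  refine ⟨⋂ q ∈ Iic ((fun _ => t, fun _ => t) : (Fin (k + 1) → ℕ) × (Fin (k + 2) → ℕ)), W q,
    (biInter_mem (finite_Iic _)).2 fun q _ => hW q, fun s x z hs hx hz => ?_⟩
  refine hW' (s, x) z fun j => (hz j).imp id fun h => ⟨h.1, ?_⟩
  exact mem_iInter₂.1 h.2 (s, x) ⟨hs, hx⟩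

/-- the invariant at one stage -/
structure Stage {k : ℕ} (G : Good Ω k) (r : ℕ) (ε : ℝ) (p : ℕ → Ω) (φ : ℕ → C(Ω, ℂ))
    (W : ℕ → Set Ω) (t : ℕ) : Prop where
  mem : p t ∈ derivedSet^[r - t] univ
  isOpen : IsOpen (W t)
  memW : p t ∈ W t
  one : ∀ ω ∈ W t, φ t ω = 1
  unit : Unit01 (φ t)
  sub : ∀ t' < t, W t ⊆ W t'
  supp : ∀ t' < t, ∀ ω ∉ W t', φ t ω = 0
  zero : ∀ t' < t, φ t (p t') = 0
  caus : ∀ (s : Fin (k + 1) → ℕ) (x : Fin (k + 2) → ℕ) (z : Fin (k + 2) → Ω), (∀ i, s i ≤ t) →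
    (∀ j, x j ≤ t) → (∀ j, z j = p (x j) ∨ (x j = t ∧ z j ∈ W t)) →
    ‖G.val z (fun i => φ (s i)) - G.val (fun j => p (x j)) (fun i => φ (s i))‖ ≤ ε
  neg : ∀ (s : Fin (k + 1) → ℕ) (x : Fin (k + 2) → ℕ) (i₀ : Fin (k + 1)), s i₀ = t →
    (∀ i, i ≠ i₀ → s i < t) → (∀ j, x j < t) →
    ‖G.val (fun j => p (x j)) (fun i => φ (s i))‖ ≤ ε

omit [T2Space Ω] in
theorem Stage.congr {k : ℕ} {G : Good Ω k} {r : ℕ} {ε : ℝ} {p p' : ℕ → Ω} {φ φ' : ℕ → C(Ω, ℂ)}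
    {W W' : ℕ → Set Ω} {t : ℕ} (h : Stage G r ε p φ W t) (hp : ∀ i ≤ t, p' i = p i)
    (hφ : ∀ i ≤ t, φ' i = φ i) (hW : ∀ i ≤ t, W' i = W i) : Stage G r ε p' φ' W' t where
  mem := hp t le_rfl ▸ h.mem
  isOpen := hW t le_rfl ▸ h.isOpen
  memW := by rw [hp t le_rfl, hW t le_rfl]; exact h.memW
  one := by rw [hφ t le_rfl, hW t le_rfl]; exact h.one
  unit := hφ t le_rfl ▸ h.unit
  sub := fun t' ht => by rw [hW t le_rfl, hW t' ht.le]; exact h.sub t' ht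
  supp := fun t' ht => by rw [hφ t le_rfl, hW t' ht.le]; exact h.supp t' ht
  zero := fun t' ht => by rw [hφ t le_rfl, hp t' ht.le]; exact h.zero t' ht
  caus := fun s x z hs hx hz => by
    simp only [funext fun i => hφ _ (hs i), funext fun j => hp _ (hx j)]
    exact h.caus s x z hs hx fun j => by simpa only [hp _ (hx j), hW t le_rfl] using hz j
  neg := fun s x i₀ h0 hs hx => by
    have hs' : ∀ i, s i ≤ t := fun i => by
      by_cases hi : i = i₀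
      · exact hi ▸ h0.le
      · exact (hs i hi).le
    simp only [funext fun i => hφ _ (hs' i), funext fun j => hp _ (hx j).le]
    exact h.neg s x i₀ h0 hs hx

theorem exists_stages {k : ℕ} (G : Good Ω k) {r : ℕ} (hΩ : (derivedSet^[r] (univ : Set Ω)).Nonempty)
    {ε : ℝ} (hε : 0 < ε) : ∀ T ≤ r, ∃ p φ W, ∀ t ≤ T, Stage G r ε p φ W t := by
  classical
  intro T
  induction T with
  | zero =>
    intro _
    obtain ⟨c, hc⟩ := hΩ
    obtain ⟨W, hW, h⟩ := exists_nhd G (fun _ => c) (fun _ => 1) 0 hε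
    refine ⟨fun _ => c, fun _ => 1, fun _ => interior W, fun t ht => ?_⟩
    obtain rfl : t = 0 := by omega
    exact ⟨hc, isOpen_interior, mem_interior_iff_mem_nhds.2 hW, fun _ _ => rfl,
      fun _ => ⟨1, zero_le_one, le_rfl, by simp⟩, by simp, by simp, by simp,
      fun s x z hs hx hz => h s x z hs hx fun j => (hz j).imp id fun h => ⟨h.1, interior_subset h.2⟩,
      fun s x _ _ _ hx => absurd (hx 0) (by simp)⟩
  | succ T ih =>
    intro hT
    obtain ⟨p, φ, W, h⟩ := ih (by omega)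
    have hT' := h T le_rfl
    let U : Set Ω := W T \ p '' Iic T
    have hU : IsOpen U := hT'.isOpen.sdiff ((finite_Iic T).image p).isClosed
    have hD : (U ∩ derivedSet^[r - (T + 1)] univ).Infinite := by
      have h1 := hT'.mem
      rw [show r - T = (r - (T + 1)) + 1 by omega, iterate_succ_apply', mem_derivedSet,
        accPt_iff_frequently] at h1
      have h2 : (W T ∩ derivedSet^[r - (T + 1)] univ).Infinite := by
        intro hfin
        have h3 : ((W T ∩ derivedSet^[r - (T + 1)] univ) \ {p T})ᶜ ∈ 𝓝 (p T) :=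
          (hfin.subset sdiff_subset).isClosed.isOpen_compl.mem_nhds (by simp)
        obtain ⟨y, ⟨hy1, hy2⟩, hy3, hy4⟩ :=
          (h1.and_eventually (inter_mem (hT'.isOpen.mem_nhds hT'.memW) h3)).exists
        exact hy4 ⟨⟨hy3, hy2⟩, hy1⟩
      refine (h2.sdiff ((finite_Iic T).image p)).mono fun y hy => ⟨⟨hy.1.1, hy.2⟩, hy.1.2⟩
    let lam : Fin (k + 1) × (Fin (k + 1) → ℕ) × (Fin (k + 2) → ℕ) → C(Ω, ℂ) →ₗ[ℂ] ℂ := fun q =>
      (G.val fun j => p (q.2.2 j)).toLinearMap (fun i => φ (q.2.1 i)) q.1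
    obtain ⟨c, hc, ψ, hψ, hψ0, hψ1, hsmall⟩ := exists_bump
      (finite_Iic ((Fin.last k, fun _ => T, fun _ => T) :
        Fin (k + 1) × (Fin (k + 1) → ℕ) × (Fin (k + 2) → ℕ))) lam G.C_nonneg
      (fun q hq ψ => by
        refine (G.bound _ _).trans (mul_le_mul_of_nonneg_left ?_ G.C_nonneg)
        rw [← Finset.mul_prod_erase _ _ (Finset.mem_univ q.1), update_self]
        refine mul_le_of_le_one_right (norm_nonneg _)
          (Finset.prod_le_one (fun _ _ => norm_nonneg _) fun i hi => ?_)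
        rw [update_of_ne (Finset.ne_of_mem_erase hi)]
        exact (h _ (hq.2.1 i)).unit.norm_le) hU hD hε
    let p' := update p (T + 1) c
    let φ' := update φ (T + 1) ψ
    have hp' : ∀ i ≤ T, p' i = p i := fun i hi => update_of_ne (by omega) _ _
    have hφ' : ∀ i ≤ T, φ' i = φ i := fun i hi => update_of_ne (by omega) _ _
    have hpT : p' (T + 1) = c := update_self _ _ _
    have hφT : φ' (T + 1) = ψ := update_self _ _ _
    obtain ⟨W₀, hW₀, hcaus⟩ := exists_nhd G p' φ' (T + 1) hε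
    rw [hpT] at hW₀
    let W₁ : Set Ω := interior (W₀ ∩ U ∩ {ω | ψ ω = 1})
    let W' := update W (T + 1) W₁
    have hW' : ∀ i ≤ T, W' i = W i := fun i hi => update_of_ne (by omega) _ _
    have hWT : W' (T + 1) = W₁ := update_self _ _ _
    have hsub : ∀ t' ≤ T, W T ⊆ W t' := fun t' ht => by
      rcases ht.eq_or_lt with rfl | ht
      · exact subset_rfl
      · exact hT'.sub t' ht
    refine ⟨p', φ', W', fun t ht => ?_⟩
    rcases ht.eq_or_lt with rfl | ht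
    swap
    · exact (h t (by omega)).congr (fun i hi => hp' i (by omega)) (fun i hi => hφ' i (by omega))
        fun i hi => hW' i (by omega)
    refine ⟨hpT ▸ hc.2, hWT ▸ isOpen_interior, ?_, ?_, hφT ▸ hψ, fun t' ht => ?_, fun t' ht => ?_,
      fun t' ht => ?_, fun s x z hs hx hz => ?_, fun s x i₀ h0 hs hx => ?_⟩
    · rw [hpT, hWT]
      exact mem_interior_iff_mem_nhds.2 (inter_mem (inter_mem hW₀ (hU.mem_nhds hc.1)) hψ1)
    · rw [hφT, hWT]
      exact fun ω hω => (interior_subset hω).2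
    · rw [hWT, hW' t' (by omega)]
      exact fun ω hω => hsub t' (by omega) (interior_subset hω).1.2.1
    · rw [hφT, hW' t' (by omega)]
      exact fun ω hω => hψ0 ω fun hω' => hω (hsub t' (by omega) hω'.1)
    · rw [hφT, hp' t' (by omega)]
      exact hψ0 _ fun hω => hω.2 ⟨t', by simpa using Nat.lt_succ_iff.1 ht, rfl⟩
    · refine hcaus s x z hs hx fun j => (hz j).imp id fun h => ⟨h.1, ?_⟩
      exact (interior_subset (hWT ▸ h.2 : z j ∈ W₁)).1.1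
    · have h1 := hsmall (i₀, update s i₀ 0, x) ⟨Fin.le_last _, fun i => by
        by_cases hi : i = i₀
        · subst hi; simp
        · simpa [update_of_ne hi] using Nat.lt_succ_iff.1 (hs i hi),
        fun j => Nat.lt_succ_iff.1 (hx j)⟩
      have e1 : (fun j => p' (x j)) = fun j => p (x j) :=
        funext fun j => hp' _ (Nat.lt_succ_iff.1 (hx j))
      have e2 : (fun i => φ' (s i)) = update (fun i => φ (update s i₀ 0 i)) i₀ ψ := by
        funext i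
        by_cases hi : i = i₀
        · subst hi; rw [h0, hφT, update_self]
        · rw [update_of_ne hi, update_of_ne hi, hφ' _ (Nat.lt_succ_iff.1 (hs i hi))]
      rw [e1, e2]
      exact h1

/-- the properties of a finished chain -/
structure IsChain {k : ℕ} (G : Good Ω k) (r : ℕ) (ε : ℝ) (p : ℕ → Ω) (φ : ℕ → C(Ω, ℂ)) :
    Prop where
  unit : ∀ t ≤ r, Unit01 (φ t)
  ev : ∀ t ≤ r, ∀ x ≤ r, φ t (p x) = if t ≤ x then 1 else 0
  mul : ∀ t t', t < t' → t' ≤ r → φ t * φ t' = φ t'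
  caus : ∀ (s : Fin (k + 1) → ℕ) (x : Fin (k + 2) → ℕ) (t : ℕ), t ≤ r → (∀ i, s i ≤ t) →
    (∀ j, x j ≤ r) → ‖G.val (fun j => p (x j)) (fun i => φ (s i))
      - G.val (fun j => p (min (x j) t)) (fun i => φ (s i))‖ ≤ ε
  neg : ∀ (s : Fin (k + 1) → ℕ) (x : Fin (k + 2) → ℕ) (i₀ : Fin (k + 1)), s i₀ ≤ r →
    (∀ i, i ≠ i₀ → s i < s i₀) → (∀ j, x j < s i₀) →
    ‖G.val (fun j => p (x j)) (fun i => φ (s i))‖ ≤ ε

theorem exists_chain {k : ℕ} (G : Good Ω k) {r : ℕ} (hΩ : (derivedSet^[r] (univ : Set Ω)).Nonempty)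
    {ε : ℝ} (hε : 0 < ε) : ∃ p φ, IsChain G r ε p φ := by
  obtain ⟨p, φ, W, h⟩ := exists_stages G hΩ hε r le_rfl
  have hmem : ∀ t x, t ≤ x → x ≤ r → p x ∈ W t := fun t x htx hx => by
    rcases htx.eq_or_lt with rfl | htx
    · exact (h t hx).memW
    · exact (h x hx).sub t htx (h x hx).memW
  refine ⟨p, φ, fun t ht => (h t ht).unit, fun t ht x hx => ?_, fun t t' htt ht' => ?_,
    fun s x t ht hs hx => ?_, fun s x i₀ h0 hs hx => (h _ h0).neg s x i₀ rfl hs hx⟩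
  · split_ifs with htx
    · exact (h t ht).one _ (hmem t x htx hx)
    · exact (h t ht).zero x (by omega)
  · ext ω
    by_cases hω : ω ∈ W t
    · simp [(h t (by omega)).one ω hω]
    · simp [(h t' ht').supp t htt ω hω]
  · refine (h t ht).caus s (fun j => min (x j) t) _ hs (fun j => min_le_right _ _) fun j => ?_
    rcases le_total (x j) t with hj | hj
    · left; rw [min_eq_left hj]
    · right; exact ⟨min_eq_right hj, hmem t _ hj (hx j)⟩

end Pool.Agent.Work.MP_92c8f1_an.Hedge
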