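import Pool.Agent.Work.MP_92c8f1_an.Hedge.Gap
import Mathlib.LinearAlgebra.Multilinear.Basis
import Mathlib.LinearAlgebra.PiTensorProduct.Generators

/-!
From the order-indiscernible kernel to a natural multilinear form, and the contradiction.
-/

namespace Pool.Agent.Work.MP_92c8f1_an.Hedge

open Pool.Agent.Work.MP_92c8f1_an Function

/-- levels attached to a slot -/
def lev (i : ℕ) (m : ℤ) : ℚ := m + 1 / ((i : ℚ) + 2)

theorem lev_mem (i : ℕ) (m : ℤ) : (m : ℚ) < lev i m ∧ lev i m < m + 1 := by
  have h : (0 : ℚ) ≤ i := Nat.cast_nonneg i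
  unfold lev
  refine ⟨lt_add_of_pos_right _ (by positivity), ?_⟩
  have : 1 / ((i : ℚ) + 2) < 1 := by rw [div_lt_one (by positivity)]; linarith
  linarith

theorem floor_lt {s : ℚ} {m x : ℤ} (h : (m : ℚ) < s ∧ s < m + 1) : s < x ↔ m < x := by
  constructor
  · intro h1
    exact_mod_cast h.1.trans h1
  · intro h1
    have : ((m + 1 : ℤ) : ℚ) ≤ x := by exact_mod_cast h1
    push_cast at this
    linarith [h.2]

theorem floor_ne {s : ℚ} {m x : ℤ} (h : (m : ℚ) < s ∧ s < m + 1) : s ≠ x := by
  rintro rfl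
  have h1 : m < x := by exact_mod_cast h.1
  have h2 : x < m + 1 := by exact_mod_cast h.2
  omega

theorem lev_injective {n : ℕ} (m : Fin n → ℤ) : Injective fun i : Fin n => lev i (m i) := by
  intro i j h
  simp only at h
  have h1 : m i = m j := by
    have a := (floor_lt (x := m j + 1) (lev_mem i (m i))).1 (by rw [h]; simpa using (lev_mem _ _).2)
    have b := (floor_lt (x := m i + 1) (lev_mem j (m j))).1
      (by rw [← h]; simpa using (lev_mem _ _).2)
    omega
  simp only [lev, h1, add_right_inj, one_div, inv_inj, add_left_inj, Nat.cast_inj] at h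
  exact Fin.ext h

theorem cut_floor {s : ℚ} {m x : ℤ} (h : (m : ℚ) < s ∧ s < m + 1) :
    cut s x = if m < x then 1 else 0 := by
  unfold cut
  simp only [← floor_lt h, le_iff_lt_or_eq, floor_ne h, or_false]

/-- tuples of integer point masses -/
noncomputable def dz {n : ℕ} (m : Fin n → ℤ) : Fin n → ℤ →₀ ℂ := fun i => Finsupp.single (m i) 1

theorem ext_single {n : ℕ} {α : Type*} {f g : MultilinearMap ℂ (fun _ : Fin n => α →₀ ℂ) ℂ}
    (h : ∀ m : Fin n → α, f (fun i => Finsupp.single (m i) 1) = g fun i => Finsupp.single (m i) 1) :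
    f = g :=
  Module.Basis.ext_multilinear (fun _ => Finsupp.basisSingleOne) fun m => by simpa using h m

/-- the cut function of a level -/
noncomputable def cf {B : Type*} (y : B → ℤ) (m : ℤ) : B → ℂ := fun β => if m < y β then 1 else 0

/-- values at the points -/
noncomputable def sg {B : Type*} (y : B → ℤ) : (ℤ →₀ ℂ) →ₗ[ℂ] (B → ℂ) :=
  Finsupp.linearCombination ℂ (cf y)

@[simp] theorem sg_single {B : Type*} (y : B → ℤ) (m : ℤ) : sg y (Finsupp.single m 1) = cf y m := by
  simp [sg]

/-- a section -/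
noncomputable def ee {B : Type*} [Fintype B] (y : B → ℤ) : (B → ℂ) →ₗ[ℂ] (ℤ →₀ ℂ) :=
  Fintype.linearCombination ℂ fun β => Finsupp.single (y β - 1) 1 - Finsupp.single (y β) 1

theorem cf_sub {B : Type*} (y : B → ℤ) (m : ℤ) (β : B) :
    cf y (m - 1) β - cf y m β = if m = y β then 1 else 0 := by
  unfold cf
  split_ifs <;> first | omega | simp

theorem telescope {B : Type*} [Fintype B] {y : B → ℤ} (hy : Injective y) (lam : ℤ → ℂ)
    (h1 : ∀ m, (∀ β, y β ≠ m) → lam (m - 1) = lam m) (h2 : ∀ m, (∀ β, y β ≤ m) → lam m = 0)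
    (m : ℤ) : lam m = ∑ β, cf y m β * (lam (y β - 1) - lam (y β)) := by
  obtain ⟨T, hT⟩ := (Set.finite_range y).bddAbove
  have hT' : ∀ β, y β ≤ T := fun β => hT ⟨β, rfl⟩
  have top : ∀ m, T ≤ m → lam m = ∑ β, cf y m β * (lam (y β - 1) - lam (y β)) := fun m hm => by
    rw [h2 m fun β => (hT' β).trans hm, Finset.sum_eq_zero fun β _ => ?_]
    rw [cf, if_neg (by have := hT' β; omega), zero_mul]
  rcases le_total T m with hm | hm
  · exact top m hm
  induction m, hm using Int.leInductionDown with
  | base => exact top T le_rfl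
  | pred m hm ih =>
    have e : ∑ β, cf y (m - 1) β * (lam (y β - 1) - lam (y β))
        = ∑ β, cf y m β * (lam (y β - 1) - lam (y β))
          + ∑ β, (if m = y β then 1 else 0) * (lam (y β - 1) - lam (y β)) := by
      rw [← Finset.sum_add_distrib]
      exact Finset.sum_congr rfl fun β _ => by rw [← cf_sub]; ring
    rw [e, ← ih]
    by_cases h : ∃ β, y β = m
    · obtain ⟨β, rfl⟩ := h
      rw [Finset.sum_eq_single β (fun b _ hb => by rw [if_neg (hy.ne hb).symm, zero_mul])
        (by simp)]
      simp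
    · push Not at h
      rw [h1 m h, Finset.sum_eq_zero fun b _ => by rw [if_neg (h b).symm, zero_mul], add_zero]

theorem span_cf {B : Type*} [Fintype B] {y : B → ℤ} (hy : Injective y) {T : ℤ}
    (hT : ∀ β, y β ≤ T) :
    Submodule.span ℂ (Set.range fun m : {m : ℤ // m < T} => cf y m) = ⊤ := by
  classical
  rw [eq_top_iff, ← (Pi.basisFun ℂ B).span_eq, Submodule.span_le]
  rintro _ ⟨β, rfl⟩
  have e : Pi.basisFun ℂ B β = cf y (y β - 1) - cf y (y β) := by
    funext b
    simp [cf_sub, Pi.single_apply, hy.eq_iff, eq_comm]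
  rw [e]
  refine sub_mem (Submodule.subset_span ⟨⟨_, by have := hT β; omega⟩, rfl⟩) ?_
  rcases (hT β).eq_or_lt with h | h
  · have : cf y (y β) = 0 := by
      funext b
      exact if_neg (by have := hT b; omega)
    rw [this]
    exact zero_mem _
  · exact Submodule.subset_span ⟨⟨_, h⟩, rfl⟩

theorem comp_eq_of_slot {n : ℕ} {V : Type*} [AddCommGroup V] [Module ℂ V]
    (f : MultilinearMap ℂ (fun _ : Fin n => V) ℂ) (P : V → V)
    (h : ∀ i b, f (update b i (P (b i))) = f b) (b : Fin n → V) : f (fun i => P (b i)) = f b := by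
  have : ∀ T : Finset (Fin n), f (fun i => if i ∈ T then P (b i) else b i) = f b := by
    intro T
    induction T using Finset.induction_on with
    | empty => simp
    | insert i T hi ih =>
      rw [← ih, ← h i fun i => if i ∈ T then P (b i) else b i]
      congr 1
      funext j
      by_cases hj : j = i
      · subst hj; simp [hi]
      · simp [hj]
  simpa using this Finset.univ

theorem testF_const_add (c : ℂ) : ∀ (n : ℕ) (F : ℕ → ℕ → ℂ),
    testF n (fun u w => c + F u w) = testF n F := by
  intro n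
  induction n with
  | zero => intro F; rfl
  | succ n ih =>
    intro F
    simp only [testF, ih, blockMean, Finset.sum_add_distrib, smul_add, add_sub_add_left_eq_sub]

variable {k : ℕ} (I : Ind k)

/-- the kernel on integer data -/
noncomputable def Ind.kk (x : Fin (k + 2) → ℤ) :
    MultilinearMap ℂ (fun _ : Fin (k + 1) => ℤ →₀ ℂ) ℂ :=
  (I.K fun j => x j).compLinearMap fun i => Finsupp.lmapDomain ℂ ℂ (lev i)

theorem Ind.kk_dz (x : Fin (k + 2) → ℤ) (m : Fin (k + 1) → ℤ) :
    I.kk x (dz m) = I.K (fun j => x j) (dl fun i => lev i (m i)) := by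
  simp only [Ind.kk, MultilinearMap.compLinearMap_apply, dz, Finsupp.lmapDomain_apply,
    Finsupp.mapDomain_single]
  rfl

theorem Ind.K_eq_kk (x : Fin (k + 2) → ℤ) (m : Fin (k + 1) → ℤ) (s : Fin (k + 1) → ℚ)
    (hs : Injective s) (h : ∀ i, (m i : ℚ) < s i ∧ s i < m i + 1) :
    I.K (fun j => x j) (dl s) = I.kk x (dz m) := by
  rw [I.kk_dz]
  exact I.pattern _ _ _ _ hs (lev_injective m) (fun _ _ => Iff.rfl) (fun i j => floor_ne (h i))
    (fun i j => floor_ne (lev_mem _ _)) fun i j => by rw [floor_lt (h i), floor_lt (lev_mem _ _)]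

theorem Ind.kk_pattern (x x' : Fin (k + 2) → ℤ) (m m' : Fin (k + 1) → ℤ)
    (hx : ∀ j j', x j < x j' ↔ x' j < x' j') (h : ∀ i j, m i < x j ↔ m' i < x' j) :
    I.kk x (dz m) = I.kk x' (dz m') := by
  rw [I.kk_dz, I.kk_dz]
  exact I.pattern _ _ _ _ (lev_injective m) (lev_injective m') (fun _ _ => by simpa using hx _ _)
    (fun i j => floor_ne (lev_mem _ _)) (fun i j => floor_ne (lev_mem _ _))
    fun i j => by rw [floor_lt (lev_mem _ _), floor_lt (lev_mem _ _), h]

theorem Ind.kk_neg (x : Fin (k + 2) → ℤ) (m : Fin (k + 1) → ℤ) (i : Fin (k + 1))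
    (h : ∀ j, x j ≤ m i) : I.kk x (dz m) = 0 := by
  rw [I.kk_dz]
  obtain ⟨i₀, h₀⟩ := Finite.exists_max fun i : Fin (k + 1) => lev i (m i)
  refine I.neg _ _ i₀ (fun i hi => lt_of_le_of_ne (h₀ i) ((lev_injective m).ne hi)) fun j => ?_
  have : (x j : ℚ) ≤ m i := by exact_mod_cast h j
  exact (this.trans_lt (lev_mem _ _).1).trans_le (h₀ i)

theorem Ind.kk_caus (x : Fin (k + 2) → ℤ) (m : Fin (k + 1) → ℤ) (T : ℤ) (h : ∀ i, m i < T) :
    I.kk x (dz m) = I.kk (fun j => min (x j) T) (dz m) := by
  rw [I.kk_dz, I.kk_dz, I.caus _ _ T fun i => ((floor_lt (lev_mem _ _)).2 (h i)).le]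
  simp

variable {B : Type} [Fintype B] [DecidableEq B]

/-- the form attached to an ordered partition -/
noncomputable def Ind.M (π : Fin (k + 2) → B) (y : B → ℤ) :
    MultilinearMap ℂ (fun _ : Fin (k + 1) => B → ℂ) ℂ :=
  (I.kk (y ∘ π)).compLinearMap fun _ => ee y

omit [DecidableEq B] in
theorem Ind.kk_eq_M (π : Fin (k + 2) → B) {y : B → ℤ} (hy : Injective y)
    (γ : Fin (k + 1) → ℤ →₀ ℂ) : I.kk (y ∘ π) γ = I.M π y fun i => sg y (γ i) := by
  refine (comp_eq_of_slot (I.kk (y ∘ π)) (fun c => ee y (sg y c)) (fun i b => ?_) γ).symm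
  have : (I.kk (y ∘ π)).compLinearMap (update (fun _ => LinearMap.id) i (ee y ∘ₗ sg y))
      = I.kk (y ∘ π) := by
    refine ext_single fun m => ?_
    have hu : ∀ t, update (dz m) i (Finsupp.single t 1) = dz (update m i t) := fun t => by
      funext j
      simp only [dz, update_apply]
      split_ifs <;> rfl
    have e := telescope hy (fun t => I.kk (y ∘ π) (dz (update m i t))) (fun t ht => ?_)
      (fun t ht => I.kk_neg _ _ i fun j => by simpa using ht _) (m i)
    · have e2 : (fun j => update (fun _ : Fin (k + 1) => (LinearMap.id : (ℤ →₀ ℂ) →ₗ[ℂ] _)) i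
          (ee y ∘ₗ sg y) j (Finsupp.single (m j) 1)) = update (dz m) i (ee y (cf y (m i))) := by
        funext j
        by_cases hj : j = i
        · subst hj; simp
        · simp [hj, dz]
      rw [MultilinearMap.compLinearMap_apply, e2]
      simp only [update_eq_self] at e
      change _ = I.kk (y ∘ π) (dz m)
      rw [e, ee, Fintype.linearCombination_apply, MultilinearMap.map_update_sum]
      simp only [MultilinearMap.map_update_smul, MultilinearMap.map_update_sub, hu, smul_eq_mul]
    · refine I.kk_pattern _ _ _ _ (fun _ _ => Iff.rfl) fun a j => ?_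
      have := ht (π j)
      simp only [update_apply, comp]
      split_ifs
      · omega
      · rfl
  conv_rhs => rw [← this]
  rw [MultilinearMap.compLinearMap_apply]
  congr 1
  funext j
  by_cases hj : j = i
  · subst hj; simp
  · simp [hj]

omit [DecidableEq B] in
theorem Ind.M_type (π : Fin (k + 2) → B) {y y' : B → ℤ} (h : ∀ a b, y a < y b ↔ y' a < y' b) :
    I.M π y = I.M π y' := by
  let L : (B → ℤ) → (B × Bool →₀ ℂ) →ₗ[ℂ] (ℤ →₀ ℂ) := fun y =>
    Finsupp.lmapDomain ℂ ℂ fun p => if p.2 then y p.1 - 1 else y p.1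
  let E : (B → ℂ) →ₗ[ℂ] (B × Bool →₀ ℂ) := Fintype.linearCombination ℂ fun β =>
    Finsupp.single (β, true) 1 - Finsupp.single (β, false) 1
  have hE : ∀ y f, ee y f = L y (E f) := fun y f => by
    simp only [ee, E, Fintype.linearCombination_apply, map_sum, map_smul, map_sub]
    simp [L]
  have key : (I.kk (y ∘ π)).compLinearMap (fun _ => L y)
      = (I.kk (y' ∘ π)).compLinearMap fun _ => L y' := by
    refine ext_single fun p => ?_
    simp only [MultilinearMap.compLinearMap_apply, L, Finsupp.lmapDomain_apply,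
      Finsupp.mapDomain_single]
    refine I.kk_pattern _ _ _ _ (fun _ _ => h _ _) fun i j => ?_
    have h1 := h (p i).1 (π j)
    have h2 := h (π j) (p i).1
    simp only [comp]
    split_ifs <;> omega
  ext f
  simpa only [Ind.M, MultilinearMap.compLinearMap_apply, hE] using
    MultilinearMap.congr_fun key fun i => E (f i)

theorem Ind.M_swap (π : Fin (k + 2) → B) {y : B → ℤ} (hy : Injective y) {β β' : B}
    (h : y β < y β') (hb : ∀ γ, ¬ (y β < y γ ∧ y γ < y β')) :
    I.M π (y ∘ Equiv.swap β β') = I.M π y := by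
  have hne : β ≠ β' := fun e => h.ne (e ▸ rfl)
  have out : ∀ γ, γ ≠ β → γ ≠ β' → y γ < y β ∨ y β' < y γ := fun γ h1 h2 => by
    have := hb γ
    have := hy.ne h1
    have := hy.ne h2
    omega
  refine Module.Basis.ext_multilinear (fun _ => Pi.basisFun ℂ B) fun b => ?_
  simp only [Pi.basisFun_apply]
  rw [eq_comm, ← sub_eq_zero]
  refine eq_zero_of_mul_le (C := I.C * 4) fun m hm => ?_
  obtain ⟨N, hN⟩ : ∃ N : ℕ, 2 ^ (m ^ 2) = N := ⟨_, rfl⟩
  let pos : B → ℕ → ℤ := fun γ t => if γ = β then y β + 2 * t else if γ = β' then y β + 2 * t + 1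
    else if y γ < y β then y γ + t else y γ + 2 * N + t
  let cnt : B → ℕ := fun γ => if γ = β ∨ γ = β' then N else 1
  let idx : ℕ → ℕ → B → ℕ := fun u w γ => if γ = β then w else if γ = β' then u else 0
  let Y : ℕ → ℕ → B → ℤ := fun u w γ => pos γ (idx u w γ)
  have hidx : ∀ u < N, ∀ w < N, ∀ γ, idx u w γ < cnt γ := fun u hu w hw γ => by
    simp only [idx, cnt]
    split_ifs <;> first | omega | tauto
  have hdis : ∀ γ t γ' t', t < cnt γ → t' < cnt γ' → pos γ t = pos γ' t' → γ = γ' ∧ t = t' := by
    intro γ t γ' t'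
    have o1 := out γ
    have o2 := out γ'
    have o3 := hy.eq_iff (a := γ) (b := γ')
    by_cases h1 : γ = β <;> by_cases h2 : γ = β' <;> by_cases h3 : γ' = β <;>
      by_cases h4 : γ' = β' <;>
      simp only [pos, cnt, h1, h2, h3, h4, hne, hne.symm, ← o3, if_true, if_false, or_true,
        or_false, ne_eq, not_false_eq_true, forall_const, true_and, false_and] at o1 o2 ⊢ <;>
      (try split_ifs) <;> omega
  have hY : ∀ u < N, ∀ w < N, Injective (Y u w) := fun u hu w hw γ γ' e =>
    (hdis _ _ _ _ (hidx u hu w hw γ) (hidx u hu w hw γ') e).1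
  have hord : ∀ u < N, ∀ w < N, ∀ γ γ', Y u w γ < Y u w γ' ↔
      (if w ≤ u then y else y ∘ Equiv.swap β β') γ
        < (if w ≤ u then y else y ∘ Equiv.swap β β') γ' := by
    intro u hu w hw γ γ'
    have o1 := out γ
    have o2 := out γ'
    by_cases h0 : w ≤ u <;> by_cases h1 : γ = β <;> by_cases h2 : γ = β' <;>
      by_cases h3 : γ' = β <;> by_cases h4 : γ' = β' <;>
      simp only [Y, pos, idx, h0, h1, h2, h3, h4, hne, hne.symm, if_true, if_false, comp,
        Equiv.swap_apply_def, ne_eq, not_false_eq_true, forall_const] at o1 o2 ⊢ <;>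
      (try split_ifs) <;> omega
  let g : B → ℤ →₀ ℂ := fun γ => ∑ t ∈ Finset.range (cnt γ),
    (Finsupp.single (pos γ t - 1) 1 - Finsupp.single (pos γ t) 1)
  have hg : ∀ u < N, ∀ w < N, ∀ γ, sg (Y u w) (g γ) = Pi.single γ 1 := by
    intro u hu w hw γ
    funext γ'
    simp only [g, map_sum, map_sub, sg_single, Finset.sum_apply, Pi.sub_apply, cf_sub]
    by_cases e : γ' = γ
    · subst e
      rw [Finset.sum_eq_single_of_mem (idx u w γ') (Finset.mem_range.2 (hidx u hu w hw _))
        fun t ht hne => if_neg fun e =>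
          hne (hdis _ _ _ _ (Finset.mem_range.1 ht) (hidx u hu w hw _) e).2]
      simp
    · rw [Finset.sum_eq_zero fun t ht => if_neg fun e' =>
        e (hdis _ _ _ _ (Finset.mem_range.1 ht) (hidx u hu w hw _) e').1.symm]
      simp [e]
  have hadm : ∀ i : Fin (k + 1), Adm (Finsupp.lmapDomain ℂ ℂ (lev i) (g (b i))) := fun i => by
    simp only [g, map_sum, map_sub, Finsupp.lmapDomain_apply, Finsupp.mapDomain_single]
    refine adm_sum _ _ _ (fun t => ?_) fun t => ?_
    · simp [lev]
    · have : pos (b i) t ≤ pos (b i) (t + 1) - 1 := by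
        simp only [pos]
        split_ifs <;> omega
      have h2 : ((pos (b i) t : ℤ) : ℚ) ≤ ((pos (b i) (t + 1) - 1 : ℤ) : ℚ) := by
        exact_mod_cast this
      unfold lev
      linarith
  have ht := I.test _ hadm m hm (fun u w j => (Y u w (π j) : ℤ)) fun j => by
    by_cases h1 : π j = β
    · right; intro u u' w; simp [Y, idx, h1]
    · left; intro u w w'; simp [Y, idx, h1]
  let μ₁ := I.M π y fun i => Pi.single (b i) 1
  let μ₂ := I.M π (y ∘ Equiv.swap β β') fun i => Pi.single (b i) 1
  rw [testF_congr _ _ (fun u w => μ₂ + (μ₁ - μ₂) * if w ≤ u then 1 else 0) fun u hu w hw => ?_,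
    testF_const_add] at ht
  · have e := testF_map (LinearMap.mul ℂ ℂ (μ₁ - μ₂)) (m ^ 2) fun u w => if w ≤ u then 1 else 0
    simp only [LinearMap.mul_apply', testF_tri] at e
    rw [← e, norm_mul] at ht
    have hm' : (0 : ℝ) < m := by exact_mod_cast hm
    rw [norm_mul]
    simp only [Complex.norm_natCast, Nat.cast_pow, norm_pow] at ht ⊢
    refine le_of_mul_le_mul_right ?_ hm'
    change (m : ℝ) * ‖μ₁ - μ₂‖ * m ≤ _
    nlinarith
  · rw [hN] at hu hw
    change I.kk (Y u w ∘ π) (fun i => g (b i)) = _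
    rw [I.kk_eq_M π (hY u hu w hw), I.M_type π (hord u hu w hw)]
    simp only [hg u hu w hw]
    split_ifs <;> simp [μ₁, μ₂]

theorem Ind.M_indep (π : Fin (k + 2) → B) {y y' : B → ℤ} (hy : Injective y) (hy' : Injective y') :
    I.M π y = I.M π y' := by
  ext f
  refine sort_lemma y' Injective (fun z => I.M π z f) _ (fun _ h => h) (fun z hz h => ?_)
    (fun z hz i j h1 _ hb => ⟨hz.comp (Equiv.injective _), by rw [I.M_swap π hz h1 hb]⟩) y hy
  rw [I.M_type π (y' := y') fun a b => ?_]
  refine ⟨fun h1 => lt_of_le_of_ne (not_lt.1 (h a b h1)) (hy'.ne fun e => h1.ne (e ▸ rfl)),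
    fun h1 => ?_⟩
  exact lt_of_le_of_ne (not_lt.1 fun h2 => h b a h2 h1) (hz.ne fun e => h1.ne (e ▸ rfl))

omit [DecidableEq B] in
theorem Ind.M_split (π : Fin (k + 2) → B) {y : B → ℤ} (hy : Injective y) {x : Fin (k + 2) → ℤ}
    (hx : Injective x) {T : ℤ} (hT : ∀ β, y β ≤ T) (h : ∀ j, min (x j) T = y (π j)) :
    I.M π y = (I.M id x).compLinearMap fun _ => LinearMap.funLeft ℂ ℂ π := by
  refine MultilinearMap.ext_of_span_eq_top (fun _ => span_cf hy hT) fun m => ?_
  have e1 := I.kk_eq_M π hy (dz fun i => m i)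
  have e2 := I.kk_eq_M id hx (dz fun i => m i)
  have e3 := I.kk_caus x (fun i => m i) T fun i => (m i).2
  simp only [dz, sg_single, comp_id] at e1 e2
  simp only [h] at e3
  rw [← e1, MultilinearMap.compLinearMap_apply]
  refine (e3.symm.trans e2).trans ?_
  congr 1
  funext i j
  have := h j
  have := (m i).2
  simp only [cf, LinearMap.funLeft_apply]
  congr 1
  apply propext
  omega

theorem span_cf' {B : Type*} [Fintype B] {y : B → ℤ} (hy : Injective y) :
    Submodule.span ℂ (Set.range (cf y)) = ⊤ := by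
  obtain ⟨T, hT⟩ := (Set.finite_range y).bddAbove
  rw [eq_top_iff, ← span_cf hy (T := T) fun β => hT ⟨β, rfl⟩]
  exact Submodule.span_mono (Set.range_comp_subset_range (fun m : {m : ℤ // m < T} => m.1) (cf y))

theorem Ind.M_dd (j : Fin (k + 2)) {y : Fin (k + 1) → ℤ} (hy : Injective y)
    {x : Fin (k + 2) → ℤ} (hx : Injective x) :
    I.M (dd j) y = (I.M id x).compLinearMap fun _ => LinearMap.funLeft ℂ ℂ (dd j) := by
  let y' : Fin (k + 1) → ℤ := fun β => if β = dd j j then (k + 1 : ℕ) else (β : ℕ)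
  let x' : Fin (k + 2) → ℤ := fun i => if dd j i = dd j j then (k + 1 : ℕ) + (i : ℕ) else (dd j i : ℕ)
  have hy' : Injective y' := fun a b h => by
    have := a.2
    have := b.2
    simp only [y'] at h
    split_ifs at h with h1 h2 h2
    · rw [h1, h2]
    · omega
    · omega
    · exact Fin.ext (by omega)
  have hx' : Injective x' := fun a b h => by
    have := (dd j a).2
    have := (dd j b).2
    simp only [x'] at h
    split_ifs at h with h1 h2 h2
    · exact Fin.ext (by omega)
    · omega
    · omega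
    · by_contra hne
      exact h1 (dd_merge j a b (Fin.ext (by omega)) hne)
  rw [I.M_indep _ hy hy', I.M_indep id hx hx']
  refine I.M_split _ hy' hx' (T := (k + 1 : ℕ)) (fun β => ?_) fun i => ?_
  · have := β.2
    simp only [y']
    split_ifs <;> omega
  · have := (dd j i).2
    simp only [x', y']
    split_ifs <;> omega

/-- the coboundary as a multilinear form -/
noncomputable def cobM {A : Type*} [NormedCommRing A] [NormedAlgebra ℂ A] (χ : A →ₗ[ℂ] ℂ) {n : ℕ}
    (N : MultilinearMap ℂ (fun _ : Fin n => A) ℂ) :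
    MultilinearMap ℂ (fun _ : Fin (n + 1) => A) ℂ :=
  LinearMap.uncurryLeft (M := fun _ : Fin (n + 1) => A) (χ.smulRight N)
    + ∑ i : Fin n, (-1 : ℂ) ^ ((i : ℕ) + 1) •
      ({ toFun := fun a => N (Fin.contractNth i.castSucc (· * ·) a)
         map_update_add' := by
          intro inst a k x y
          obtain rfl : inst = instDecidableEqFin _ := Subsingleton.elim _ _
          obtain ⟨k', u, h⟩ := contract_update i a k
          rw [h, h, h, mul_add, N.map_update_add]
         map_update_smul' := by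
          intro inst a k c x
          obtain rfl : inst = instDecidableEqFin _ := Subsingleton.elim _ _
          obtain ⟨k', u, h⟩ := contract_update i a k
          rw [h, h, mul_smul_comm, N.map_update_smul] } :
        MultilinearMap ℂ (fun _ : Fin (n + 1) => A) ℂ)
    + (-1 : ℂ) ^ (n + 1) •
      MultilinearMap.uncurryRight (M := fun _ : Fin (n + 1) => A) (N.smulRight χ)

theorem cobM_apply {A : Type*} [NormedCommRing A] [NormedAlgebra ℂ A] (χ : A →ₗ[ℂ] ℂ) {n : ℕ}
    (N : MultilinearMap ℂ (fun _ : Fin n => A) ℂ) (a : Fin (n + 1) → A) :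
    cobM χ N a = cob χ N a := by
  simp [cobM, cob, cobL, mul_comm]
  rfl

theorem contract_max {n : ℕ} (s : Fin (n + 1) → ℚ) (m : Fin (n + 1) → ℤ) (hs : Injective s)
    (h : ∀ i, (m i : ℚ) < s i ∧ s i < m i + 1) (i : Fin n) :
    Injective (Fin.contractNth i.castSucc max s) ∧ ∀ a,
      ((Fin.contractNth i.castSucc max m a : ℤ) : ℚ) < Fin.contractNth i.castSucc max s a ∧
        Fin.contractNth i.castSucc max s a < (Fin.contractNth i.castSucc max m a : ℤ) + 1 := by
  refine ⟨fun a b e => ?_, fun a => ?_⟩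
  · have key : ∀ a : Fin n, ∃ c : Fin (n + 1), Fin.contractNth i.castSucc max s a = s c ∧
        ((a : ℕ) < i → (c : ℕ) = a) ∧ ((a : ℕ) = i → (c : ℕ) = a ∨ (c : ℕ) = a + 1) ∧
        ((i : ℕ) < a → (c : ℕ) = a + 1) := fun a => by
      simp only [Fin.contractNth, Fin.val_castSucc]
      split_ifs with h1 h2
      · exact ⟨_, rfl, by simp; omega⟩
      · rcases max_choice (s a.castSucc) (s a.succ) with h | h
        · exact ⟨_, h, by simp; omega⟩
        · exact ⟨_, h, by simp; omega⟩
      · exact ⟨_, rfl, by simp; omega⟩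
    obtain ⟨c, hc, h1⟩ := key a
    obtain ⟨c', hc', h2⟩ := key b
    have := congrArg Fin.val (hs (hc.symm.trans (e.trans hc')))
    exact Fin.ext (by omega)
  · simp only [Fin.contractNth]
    split_ifs
    · exact h _
    · push_cast
      exact ⟨max_lt_max (h _).1 (h _).1, by
        rw [← max_add_add_right]; exact max_lt_max (h _).2 (h _).2⟩
    · exact h _

theorem no_ind (I : Ind (k + 1)) : False := by
  let x : Fin (k + 3) → ℤ := fun j => (j : ℕ)
  have hx : Injective x := fun a b h => Fin.ext (by simpa [x] using h)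
  let y : Fin (k + 2) → ℤ := fun j => (j : ℕ)
  have hy : Injective y := fun a b h => Fin.ext (by simpa [y] using h)
  have hN : ∀ m, I.M id x (fun i => cf x (m i)) = I.kk x (dz m) := fun m => by
    simpa [dz] using (I.kk_eq_M id hx (dz m)).symm
  refine no_form k (I.M id x) (fun f => ?_) fun f => ?_
  · have : cobM (LinearMap.proj 0) (I.M id x) = 0 := by
      refine MultilinearMap.ext_of_span_eq_top (fun _ => span_cf' hx) fun m => ?_
      rw [cobM_apply]
      have hs := lev_injective m
      have h1 := I.coc _ (fun j => x j) hs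
      have h2 : ∀ i : Fin (k + 2), Fin.contractNth i.castSucc (· * ·) (fun i => cf x (m i))
          = fun a => cf x (Fin.contractNth i.castSucc max m a) := fun i => by
        funext a
        simp only [Fin.contractNth]
        split_ifs
        · rfl
        · funext j
          simp only [cf, Pi.mul_apply, max_lt_iff]
          split_ifs <;> simp_all
        · rfl
      unfold cob cobL
      simp only [h2, hN]
      rw [I.K_eq_kk x (fun i => m i.succ) (fun i => lev i.succ (m i.succ))
          (hs.comp (Fin.succ_injective _)) fun i => lev_mem _ _,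
        I.K_eq_kk x (fun i => m i.castSucc) (fun i => lev i.castSucc (m i.castSucc))
          (hs.comp (Fin.castSucc_injective _)) fun i => lev_mem _ _,
        Finset.sum_congr rfl fun i _ => by
          rw [I.K_eq_kk x _ _ (contract_max _ m hs (fun i => lev_mem _ _) i).1
            (contract_max _ m hs (fun i => lev_mem _ _) i).2],
        cut_floor (lev_mem _ _), cut_floor (lev_mem _ _)] at h1
      exact h1
    have h3 := MultilinearMap.congr_fun this f
    rw [cobM_apply] at h3
    exact h3
  · let L : MultilinearMap ℂ (fun _ : Fin (k + 2) => Fin (k + 2) → ℂ) ℂ :=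
      ∑ j : Fin (k + 3), (-1 : ℂ) ^ (j : ℕ) • I.M (dd j) y
    let R : MultilinearMap ℂ (fun _ : Fin (k + 2) => Fin (k + 2) → ℂ) ℂ :=
      ∑ j : Fin (k + 3), (-1 : ℂ) ^ (j : ℕ) • (MultilinearMap.mkPiAlgebra ℂ _ ℂ).compLinearMap
        fun i => LinearMap.proj (dd j i.succ)
    have : L = R := by
      refine MultilinearMap.ext_of_span_eq_top (fun _ => span_cf' hy) fun m => ?_
      have h1 := I.bdry (fun i => lev i (m i)) fun j => y j
      simp only [cut_floor (lev_mem _ _)] at h1
      simp only [L, R, sum_apply, smul_apply, smul_eq_mul,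
        MultilinearMap.compLinearMap_apply, MultilinearMap.mkPiAlgebra_apply, LinearMap.proj_apply]
      refine Eq.trans (Finset.sum_congr rfl fun j _ => ?_) h1
      have e := I.kk_eq_M (dd j) hy (dz m)
      simp only [dz, sg_single] at e
      rw [← e]
      exact congrArg _ (I.kk_dz _ m)
    have h2 := MultilinearMap.congr_fun this f
    simp only [L, R, I.M_dd _ hy hx, sum_apply, smul_apply,
      smul_eq_mul, MultilinearMap.compLinearMap_apply, MultilinearMap.mkPiAlgebra_apply,
      LinearMap.proj_apply] at h2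
    exact h2

end Pool.Agent.Work.MP_92c8f1_an.Hedge
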