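import Pool.Agent.Work.MP_92c8f1_an.Parked.InfiniteHeight

/-!
The earlier statement follows word for word from the new one.
-/

open Pool.Agent.Work.MP_92c8f1_an

universe v

theorem Pool.Agent.Work.MP_92c8f1_an.Hedge.old_statement :
    ∀ m : ℕ, 3 ≤ m + 1 →
      ∃ (Ω : Type) (_ : TopologicalSpace Ω) (_ : CompactSpace Ω) (_ : T2Space Ω),
        IsAmenable.{0, v} C(Ω, ℂ) ∧
        ∃ (X : Type) (_ : NormedAddCommGroup X) (_ : NormedSpace ℂ X) (_ : CompleteSpace X)
          (M : Bimodule C(Ω, ℂ) X), M.IsSymmetric ∧ ¬ M.SuccCohomologyVanishes m := fun m hm =>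
  have h := Pool.Agent.Work.MP_92c8f1_an.Parked.infiniteHeight.{0, v}
  ⟨Set.Icc (0 : ℝ) 1, inferInstance, inferInstance, inferInstance, (h.1 _ h.2).1,
    (h.1 _ h.2).2 m hm⟩
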