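import Pool.Agent.Work.MP_92c8f1_an.Hedge.Limit

/-!
The order of two levels inside one gap is irrelevant.
-/

namespace Pool.Agent.Work.MP_92c8f1_an.Hedge

open Pool.Agent.Work.MP_92c8f1_an Function

theorem sort_lemma {ι α β : Type*} [Fintype ι] [DecidableEq ι] [LinearOrder α] [LinearOrder β]
    (z' : ι → β) (P : (ι → α) → Prop) (G : (ι → α) → ℂ) (c : ℂ) (hinj : ∀ z, P z → Injective z)
    (base : ∀ z, P z → (∀ i k, z i < z k → ¬ z' k < z' i) → G z = c)
    (step : ∀ z, P z → ∀ i k, z i < z k → z' k < z' i → (∀ m, ¬ (z i < z m ∧ z m < z k)) →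
      P (z ∘ Equiv.swap i k) ∧ G (z ∘ Equiv.swap i k) = G z) : ∀ z, P z → G z = c := by
  classical
  let Inv : (ι → α) → Finset (ι × ι) := fun z =>
    Finset.univ.filter fun p => z p.1 < z p.2 ∧ z' p.2 < z' p.1
  suffices h : ∀ n z, (Inv z).card = n → P z → G z = c from fun z => h _ z rfl
  intro n
  induction n using Nat.strong_induction_on with
  | _ n ih =>
    intro z hn hz
    rcases (Inv z).eq_empty_or_nonempty with h0 | h0
    · refine base z hz fun i k h1 h2 => ?_
      have : (i, k) ∈ Inv z := by simp [Inv, h1, h2]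
      simp [h0] at this
    obtain ⟨⟨i, k⟩, hp, hmin⟩ := (Inv z).exists_min_image
      (fun p => (Finset.univ.filter fun m => z p.1 < z m ∧ z m < z p.2).card) h0
    obtain ⟨h1, h2⟩ : z i < z k ∧ z' k < z' i := by simpa [Inv] using hp
    have hb : ∀ m, ¬ (z i < z m ∧ z m < z k) := by
      rintro m ⟨h3, h4⟩
      by_cases h5 : z' m < z' i
      · refine absurd (hmin (i, m) (by simp [Inv, h3, h5])) (not_le.2 (Finset.card_lt_card ?_))
        refine ⟨fun a ha => ?_, fun hs => ?_⟩
        · simp only [Finset.mem_filter, Finset.mem_univ, true_and] at ha ⊢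
          exact ⟨ha.1, ha.2.trans h4⟩
        · simpa using hs (show m ∈ _ by simp [h3, h4])
      · refine absurd (hmin (m, k) (by simp [Inv, h4, h2.trans_le (not_lt.1 h5)]))
          (not_le.2 (Finset.card_lt_card ?_))
        refine ⟨fun a ha => ?_, fun hs => ?_⟩
        · simp only [Finset.mem_filter, Finset.mem_univ, true_and] at ha ⊢
          exact ⟨h3.trans ha.1, ha.2⟩
        · simpa using hs (show m ∈ _ by simp [h3, h4])
    obtain ⟨hP, hG⟩ := step z hz i k h1 h2 hb
    rw [← hG]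
    refine ih _ (hn ▸ Finset.card_lt_card ⟨fun p hp => ?_, fun hs => ?_⟩) _ rfl hP
    · obtain ⟨a, b⟩ := p
      simp only [Inv, Finset.mem_filter, Finset.mem_univ, true_and, comp] at hp ⊢
      refine ⟨?_, hp.2⟩
      obtain ⟨h3, h4⟩ := hp
      have hne : ∀ m, m ≠ i → m ≠ k → z m < z i ∨ z k < z m := fun m hi hk => by
        rcases lt_or_gt_of_ne ((hinj z hz).ne hi) with h | h
        · exact Or.inl h
        · exact Or.inr (lt_of_le_of_ne (not_lt.1 fun h' => hb m ⟨h, h'⟩) ((hinj z hz).ne hk).symm)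
      by_cases hai : a = i
      · subst hai
        by_cases hbk : b = k
        · subst hbk; exact h1
        by_cases hbi : b = a
        · subst hbi; exact absurd h4 (lt_irrefl _)
        rw [Equiv.swap_apply_left, Equiv.swap_apply_of_ne_of_ne hbi hbk] at h3
        exact h1.trans h3
      by_cases hak : a = k
      · subst hak
        by_cases hbi : b = i
        · subst hbi; exact absurd h4 h2.asymm
        by_cases hbk : b = a
        · subst hbk; exact absurd h4 (lt_irrefl _)
        rw [Equiv.swap_apply_right, Equiv.swap_apply_of_ne_of_ne hbi hbk] at h3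
        exact (hne b hbi hbk).resolve_left h3.asymm
      rw [Equiv.swap_apply_of_ne_of_ne hai hak] at h3
      by_cases hbi : b = i
      · subst hbi
        rw [Equiv.swap_apply_left] at h3
        exact (hne a hai hak).resolve_right h3.asymm
      by_cases hbk : b = k
      · subst hbk
        rw [Equiv.swap_apply_right] at h3
        exact h3.trans h1
      rwa [Equiv.swap_apply_of_ne_of_ne hbi hbk] at h3
    · have := hs hp
      simp only [Inv, Finset.mem_filter, Finset.mem_univ, true_and, comp, Equiv.swap_apply_left,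
        Equiv.swap_apply_right] at this
      exact h1.asymm this.1

theorem two_upd {ι : Type*} [DecidableEq ι] (z : ι → ℚ) {a₀ b₀ : ι} (hne : a₀ ≠ b₀) {lo hi : ℚ}
    (out : ∀ a, a ≠ a₀ → a ≠ b₀ → z a < lo ∨ hi < z a) {p q p' q' : ℚ}
    (hp : lo ≤ p ∧ p ≤ hi) (hq : lo ≤ q ∧ q ≤ hi) (hp' : lo ≤ p' ∧ p' ≤ hi)
    (hq' : lo ≤ q' ∧ q' ≤ hi) (h1 : p < q ↔ p' < q') (h2 : q < p ↔ q' < p') (a b : ι) :
    update (update z a₀ p) b₀ q a < update (update z a₀ p) b₀ q b ↔
      update (update z a₀ p') b₀ q' a < update (update z a₀ p') b₀ q' b := by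
  have o : ∀ a, a ≠ a₀ → a ≠ b₀ → ∀ t t', lo ≤ t ∧ t ≤ hi → lo ≤ t' ∧ t' ≤ hi →
      (t < z a ↔ t' < z a) ∧ (z a < t ↔ z a < t') := fun a h h' t t' ht ht' => by
    rcases out a h h' with h | h <;> constructor <;> constructor <;> intro <;> linarith
  by_cases ha : a = a₀
  · subst ha
    by_cases hb : b = a
    · subst hb; simp
    by_cases hb' : b = b₀
    · subst hb'; simpa [hne] using h1
    simpa [hne, hb, hb'] using (o b hb hb' p p' hp hp').1
  by_cases ha' : a = b₀
  · subst ha'
    by_cases hb : b = a₀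
    · subst hb; simpa [hne] using h2
    by_cases hb' : b = a
    · subst hb'; simp
    simpa [hb, hb'] using (o b hb hb' q q' hq hq').1
  by_cases hb : b = a₀
  · subst hb; simpa [hne, ha, ha'] using (o a ha ha' p p' hp hp').2
  by_cases hb' : b = b₀
  · subst hb'; simpa [ha, ha'] using (o a ha ha' q q' hq hq').2
  simp [ha, ha', hb, hb']

theorem adm_single (q : ℚ) : Adm (Finsupp.single q 1) := fun θ _ h => by
  simpa [abs_of_nonneg (h q).1] using (h q).2

theorem adm_sum (N : ℕ) (f g : ℕ → ℚ) (h1 : ∀ m, f m ≤ g m) (h2 : ∀ m, g m ≤ f (m + 1)) :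
    Adm (∑ m ∈ Finset.range N, (Finsupp.single (f m) 1 - Finsupp.single (g m) 1)) := by
  intro θ hθ h
  have e : Finsupp.linearCombination ℂ (fun q => (θ q : ℂ))
      (∑ m ∈ Finset.range N, (Finsupp.single (f m) 1 - Finsupp.single (g m) 1))
      = ((∑ m ∈ Finset.range N, (θ (f m) - θ (g m)) : ℝ) : ℂ) := by
    simp [map_sum]
  have h3 : ∀ N, ∑ m ∈ Finset.range N, (θ (f m) - θ (g m)) ≤ θ (f 0) - θ (f N) := by
    intro N
    induction N with
    | zero => simp
    | succ N ih =>
      rw [Finset.sum_range_succ]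
      linarith [hθ (h2 N)]
  rw [e, Complex.norm_real, Real.norm_of_nonneg
    (Finset.sum_nonneg fun m _ => sub_nonneg.2 (hθ (h1 m)))]
  linarith [h3 N, (h (f 0)).2, (h (f N)).1]

theorem eq_zero_of_mul_le {z : ℂ} {C : ℝ} (h : ∀ N : ℕ, 0 < N → ‖(N : ℂ) * z‖ ≤ C) : z = 0 := by
  by_contra hz
  have hz' : 0 < ‖z‖ := norm_pos_iff.2 hz
  obtain ⟨N, hN⟩ := exists_nat_gt (C / ‖z‖)
  rw [div_lt_iff₀ hz'] at hN
  have := h (N + 1) N.succ_pos
  rw [norm_mul, Complex.norm_natCast] at this
  push_cast at this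
  linarith

variable {k : ℕ} (I : Ind k)

theorem Ind.swap_level (s : Fin (k + 1) → ℚ) (x : Fin (k + 2) → ℚ) (hs : Injective s)
    (i i' : Fin (k + 1)) (h : s i < s i') (hb : ∀ m, ¬ (s i < s m ∧ s m < s i'))
    (hx : ∀ j, x j < s i ∨ s i' < x j) :
    I.K x (dl (s ∘ Equiv.swap i i')) = I.K x (dl s) := by
  have hne : i ≠ i' := fun e => h.ne (e ▸ rfl)
  let κ : ℚ → ℚ → ℂ := fun p q => I.K x (dl (update (update s i p) i' q))
  have hκ : ∀ p q p' q', s i ≤ p ∧ p ≤ s i' → s i ≤ q ∧ q ≤ s i' → s i ≤ p' ∧ p' ≤ s i' →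
      s i ≤ q' ∧ q' ≤ s i' → (p < q ↔ p' < q') → (q < p ↔ q' < p') → κ p q = κ p' q' := by
    intro p q p' q' hp hq hp' hq' h1 h2
    refine I.inv _ _ _ _ fun a b => ?_
    simp only [← Sum.update_elim_inl]
    refine two_upd _ (by simpa using hne) ?_ hp hq hp' hq' h1 h2 a b
    rintro (m | j) hm hm'
    · have e1 : m ≠ i := by simpa using hm
      have e2 : m ≠ i' := by simpa using hm'
      rcases lt_or_gt_of_ne (hs.ne e1) with h | h
      · exact Or.inl h
      · exact Or.inr (lt_of_le_of_ne (not_lt.1 fun h' => hb m ⟨h, h'⟩) (hs.ne e2).symm)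
    · exact hx j
  have k1 : κ (s i) (s i') = I.K x (dl s) := by simp [κ]
  have k2 : κ (s i') (s i) = I.K x (dl (s ∘ Equiv.swap i i')) := by
    simp only [κ]
    congr 2
    funext m
    by_cases h1 : m = i'
    · subst h1; simp
    by_cases h2 : m = i
    · subst h2; simp [h1]
    simp [h1, h2, Equiv.swap_apply_of_ne_of_ne]
  rw [← k1, ← k2, eq_comm, ← sub_eq_zero]
  refine eq_zero_of_mul_le (C := I.C) fun N hN => ?_
  have hN' : (0 : ℚ) < N := by exact_mod_cast hN
  let δ : ℚ := (s i' - s i) / (4 * N)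
  have hδ : 0 < δ := div_pos (sub_pos.2 h) (by positivity)
  let u : ℕ → ℚ := fun a => s i + a * δ
  have hu : StrictMono u := fun a b hab => by
    have : (a : ℚ) < b := by exact_mod_cast hab
    simp only [u]
    nlinarith
  have hu' : ∀ a < 4 * N, s i ≤ u a ∧ u a ≤ s i' := fun a ha => by
    have h1 : u (4 * N) = s i' := by
      simp only [u, δ]
      push_cast
      field_simp
      ring
    exact ⟨by simp only [u]; nlinarith [Nat.cast_nonneg (α := ℚ) a], h1 ▸ (hu ha).le⟩
  have hval : ∀ a < 4 * N, ∀ b < 4 * N, a ≠ b →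
      κ (u a) (u b) = if a < b then κ (s i) (s i') else κ (s i') (s i) := by
    intro a ha b hb hab
    split_ifs with h1
    · exact hκ _ _ _ _ (hu' a ha) (hu' b hb) ⟨le_rfl, h.le⟩ ⟨h.le, le_rfl⟩
        (by simp [hu h1, h]) (by simp [(hu h1).le, h.le, not_lt_of_ge])
    · have h2 : b < a := by omega
      exact hκ _ _ _ _ (hu' a ha) (hu' b hb) ⟨h.le, le_rfl⟩ ⟨le_rfl, h.le⟩
        (by simp [(hu h2).le, h.le, not_lt_of_ge]) (by simp [hu h2, h])
  let F : (ℚ →₀ ℂ) →ₗ[ℂ] (ℚ →₀ ℂ) →ₗ[ℂ] ℂ := LinearMap.mk₂ ℂ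
    (fun A B => I.K x (update (update (dl s) i A) i' B))
    (fun _ _ _ => by simp only [update_comm hne, MultilinearMap.map_update_add])
    (fun _ _ _ => by simp only [update_comm hne, MultilinearMap.map_update_smul])
    (fun _ _ _ => by simp only [MultilinearMap.map_update_add])
    (fun _ _ _ => by simp only [MultilinearMap.map_update_smul])
  have hF : ∀ p q, F (Finsupp.single p 1) (Finsupp.single q 1) = κ p q := fun p q => by
    simp only [F, κ, LinearMap.mk₂_apply]
    congr 1
    funext m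
    simp only [dl, update_apply]
    split_ifs <;> rfl
  let A : ℚ →₀ ℂ := ∑ m ∈ Finset.range N,
    (Finsupp.single (u (4 * m)) 1 - Finsupp.single (u (4 * m + 2)) 1)
  let B : ℚ →₀ ℂ := ∑ m ∈ Finset.range N,
    (Finsupp.single (u (4 * m + 1)) 1 - Finsupp.single (u (4 * m + 3)) 1)
  have hA : Adm A := adm_sum N _ _ (fun m => hu.monotone (by omega))
    fun m => hu.monotone (by omega)
  have hB : Adm B := adm_sum N _ _ (fun m => hu.monotone (by omega))
    fun m => hu.monotone (by omega)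
  have e : F A B = N * (κ (s i) (s i') - κ (s i') (s i)) := by
    simp only [A, B, map_sum, map_sub, LinearMap.sum_apply, LinearMap.sub_apply, hF]
    rw [Finset.sum_congr rfl (g := fun _ => κ (s i) (s i') - κ (s i') (s i)) fun m hm => ?_]
    · simp [mul_sub]
    have hm := Finset.mem_range.1 hm
    rw [← Finset.sum_sub_distrib, Finset.sum_eq_single_of_mem m (Finset.mem_range.2 hm)]
    · rw [hval _ (by omega) _ (by omega) (by omega), hval _ (by omega) _ (by omega) (by omega),
        hval _ (by omega) _ (by omega) (by omega), hval _ (by omega) _ (by omega) (by omega)]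
      split_ifs <;> first | omega | ring
    · intro m' hm' hmm
      have hm' := Finset.mem_range.1 hm'
      rw [hval _ (by omega) _ (by omega) (by omega), hval _ (by omega) _ (by omega) (by omega),
        hval _ (by omega) _ (by omega) (by omega), hval _ (by omega) _ (by omega) (by omega)]
      split_ifs <;> first | omega | ring
  rw [← e]
  refine I.bound x _ fun m => ?_
  simp only [update_apply]
  split_ifs
  · exact hB
  · exact hA
  · exact adm_single _

theorem Ind.pattern (s : Fin (k + 1) → ℚ) (x : Fin (k + 2) → ℚ) (s' : Fin (k + 1) → ℚ)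
    (x' : Fin (k + 2) → ℚ) (hs : Injective s) (hs' : Injective s')
    (hx : ∀ j j', x j < x j' ↔ x' j < x' j') (g : ∀ i j, s i ≠ x j) (g' : ∀ i j, s' i ≠ x' j)
    (pat : ∀ i j, s i < x j ↔ s' i < x' j) : I.K x (dl s) = I.K x' (dl s') := by
  refine sort_lemma s' (fun z => Injective z ∧ (∀ i j, z i ≠ x j) ∧ ∀ i j, z i < x j ↔ s' i < x' j)
    (fun z => I.K x (dl z)) _ (fun _ h => h.1) ?_ ?_ s ⟨hs, g, pat⟩
  · rintro z ⟨hz, gz, pz⟩ h
    refine I.inv _ _ _ _ ?_
    rintro (a | a) (b | b)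
    · refine ⟨fun h1 => lt_of_le_of_ne (not_lt.1 (h a b h1)) (hs'.ne fun e => h1.ne (e ▸ rfl)),
        fun h1 => ?_⟩
      exact lt_of_le_of_ne (not_lt.1 fun h2 => h b a h2 h1) (hz.ne fun e => h1.ne (e ▸ rfl))
    · exact pz a b
    · simp only [Sum.elim_inl, Sum.elim_inr]
      rw [lt_iff_le_and_ne, lt_iff_le_and_ne, ← not_lt, ← not_lt, pz]
      simp [(gz b a).symm, (g' b a).symm]
    · exact hx a b
  · rintro z ⟨hz, gz, pz⟩ i i' h1 h2 hb
    have hx' : ∀ j, x j < z i ∨ z i' < x j := fun j => by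
      rcases lt_or_gt_of_ne (gz i j) with h | h
      · exact Or.inr ((pz _ _).2 (h2.trans ((pz _ _).1 h)))
      · exact Or.inl h
    refine ⟨⟨hz.comp (Equiv.injective _), fun m j => gz _ j, fun m j => ?_⟩,
      I.swap_level z x hz i i' h1 hb hx'⟩
    have : z i < x j ↔ z i' < x j := ⟨fun h => (hx' j).resolve_left h.asymm, h1.trans⟩
    rw [← pz, comp, Equiv.swap_apply_def]
    split_ifs with e1 e2
    · rw [e1, this]
    · rw [e2, this]
    · rfl

end Pool.Agent.Work.MP_92c8f1_an.Hedge
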