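import Mathlib.Order.Filter.Ultrafilter.Basic
import Mathlib.Order.Filter.AtTopBot.Basic
import Mathlib.Data.Finset.Sort
import Mathlib.Data.Fin.Tuple.Basic
import Mathlib.Order.Fin.Tuple

/-!
An ultrafilter on index maps whose finite marginals depend only on the order type.
-/

namespace Pool.Agent.Work.MP_92c8f1_an.Hedge

open Filter Function

/-- tensor powers of an ultrafilter -/
noncomputable def tp (U : Ultrafilter ℕ) : (k : ℕ) → Ultrafilter (Fin k → ℕ)
  | 0 => pure fun i => i.elim0
  | k + 1 => U.bind fun t => (tp U k).map fun τ => (Fin.cons t τ : Fin (k + 1) → ℕ)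

theorem eventually_tp_succ (U : Ultrafilter ℕ) (k : ℕ) (P : (Fin (k + 1) → ℕ) → Prop) :
    (∀ᶠ τ in (tp U (k + 1) : Filter _), P τ) ↔
      ∀ᶠ t in (U : Filter ℕ), ∀ᶠ τ in (tp U k : Filter _), P (Fin.cons t τ) := by
  change (∀ᶠ τ in Filter.bind (U : Filter ℕ) _, P τ) ↔ _
  rw [eventually_bind]
  rfl

theorem tp_map (U : Ultrafilter ℕ) : ∀ (M k : ℕ) (σ : Fin k → Fin M), StrictMono σ →
    ∀ P : (Fin k → ℕ) → Prop,
      (∀ᶠ τ in (tp U M : Filter _), P (τ ∘ σ)) ↔ ∀ᶠ τ in (tp U k : Filter _), P τ := by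
  intro M
  have zero : ∀ (M : ℕ) (σ : Fin 0 → Fin M) (P : (Fin 0 → ℕ) → Prop),
      (∀ᶠ τ in (tp U M : Filter _), P (τ ∘ σ)) ↔ ∀ᶠ τ in (tp U 0 : Filter _), P τ := by
    intro M σ P
    have e : ∀ τ : Fin 0 → ℕ, P τ = P fun i => i.elim0 := fun τ => by
      congr 1; exact Subsingleton.elim _ _
    simp only [e, eventually_const]
  induction M with
  | zero =>
    intro k σ _ P
    cases k with
    | zero => exact zero _ _ _
    | succ k => exact (σ 0).elim0
  | succ M ih =>
    intro k σ hσ P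
    cases k with
    | zero => exact zero _ _ _
    | succ k =>
      rw [eventually_tp_succ]
      by_cases h0 : σ 0 = 0
      · have hne : ∀ j : Fin k, σ j.succ ≠ 0 := fun j =>
          (h0 ▸ hσ (Fin.succ_pos j) : 0 < σ j.succ).ne'
        let σ' : Fin k → Fin M := fun j => (σ j.succ).pred (hne j)
        have hσ' : StrictMono σ' := fun i j hij =>
          Fin.pred_lt_pred_iff.2 (hσ (Fin.succ_lt_succ_iff.2 hij))
        have e : ∀ (t : ℕ) (τ : Fin M → ℕ), (Fin.cons t τ : Fin (M + 1) → ℕ) ∘ σ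
            = Fin.cons t (τ ∘ σ') := by
          intro t τ
          funext j
          refine Fin.cases ?_ (fun j => ?_) j
          · simp [h0]
          · simp only [comp, Fin.cons_succ, σ']
            conv_lhs => rw [← Fin.succ_pred (σ j.succ) (hne j), Fin.cons_succ]
        rw [eventually_tp_succ]
        simp only [e]
        exact eventually_congr (Eventually.of_forall fun t =>
          ih k σ' hσ' fun τ => P (Fin.cons t τ))
      · have hne : ∀ j : Fin (k + 1), σ j ≠ 0 := fun j hj =>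
          h0 (le_antisymm (hj ▸ hσ.monotone (Fin.zero_le j)) (Fin.zero_le _))
        let σ' : Fin (k + 1) → Fin M := fun j => (σ j).pred (hne j)
        have hσ' : StrictMono σ' := fun i j hij => Fin.pred_lt_pred_iff.2 (hσ hij)
        have e : ∀ (t : ℕ) (τ : Fin M → ℕ), (Fin.cons t τ : Fin (M + 1) → ℕ) ∘ σ = τ ∘ σ' := by
          intro t τ
          funext j
          simp only [comp, σ']
          conv_lhs => rw [← Fin.succ_pred (σ j) (hne j), Fin.cons_succ]
        simp only [e, eventually_const]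
        exact ih (k + 1) σ' hσ' P

theorem tp_strictMono (U : Ultrafilter ℕ) (hU : (U : Filter ℕ) ≤ atTop) : ∀ (k B : ℕ),
    ∀ᶠ τ in (tp U k : Filter (Fin k → ℕ)), StrictMono τ ∧ ∀ i, B ≤ τ i := by
  intro k
  induction k with
  | zero => intro B; exact Eventually.of_forall fun τ => ⟨fun i => i.elim0, fun i => i.elim0⟩
  | succ k ih =>
    intro B
    rw [eventually_tp_succ]
    filter_upwards [hU (eventually_ge_atTop B)] with t ht
    filter_upwards [ih (t + 1)] with τ hτ
    refine ⟨Fin.strictMono_cons.2 ⟨fun j => hτ.2 j, hτ.1⟩, fun i => ?_⟩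
    refine Fin.cases ht (fun i => ?_) i
    have := hτ.2 i
    simp only [Fin.cons_succ]
    omega

theorem exists_ultra (L : Type) [LinearOrder L] : ∃ V : Ultrafilter (L → ℕ),
    (∀ (ι : Type) [Fintype ι] (z z' : ι → L), (∀ a b, z a < z b ↔ z' a < z' b) →
      (V : Filter (L → ℕ)).map (· ∘ z) = (V : Filter (L → ℕ)).map (· ∘ z')) ∧
    ∀ (S : Finset L) (B : ℕ), ∀ᶠ τ in (V : Filter (L → ℕ)),
      StrictMonoOn τ S ∧ ∀ q ∈ S, B ≤ τ q := by
  classical
  let U : Ultrafilter ℕ := Ultrafilter.of atTop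
  have hU : (U : Filter ℕ) ≤ atTop := Ultrafilter.of_le _
  let F : Finset L → Filter (L → ℕ) := fun S =>
    (tp U S.card : Filter _).comap (· ∘ S.orderEmbOfFin rfl)
  have fac : ∀ (S : Finset L) (k : ℕ) (e : Fin k → L), StrictMono e → (∀ i, e i ∈ S) →
      F S ≤ (tp U k : Filter _).comap (· ∘ e) := by
    intro S k e he hS
    let σ : Fin k → Fin S.card := fun i => (S.orderIsoOfFin rfl).symm ⟨e i, hS i⟩
    have hσ : StrictMono σ := fun i j hij =>
      (S.orderIsoOfFin rfl).symm.strictMono (show (⟨e i, hS i⟩ : S) < ⟨e j, hS j⟩ from he hij)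
    have e1 : e = S.orderEmbOfFin rfl ∘ σ := by
      funext i
      simp only [σ, comp]
      rw [← Finset.coe_orderIsoOfFin_apply, OrderIso.apply_symm_apply]
    have e2 : (tp U S.card : Filter (Fin S.card → ℕ)).map (fun τ => τ ∘ σ)
        ≤ (tp U k : Filter (Fin k → ℕ)) := fun s hs =>
      (tp_map U _ _ σ hσ (· ∈ s)).2 hs
    rw [map_le_iff_le_comap] at e2
    refine (comap_mono e2).trans (le_of_eq ?_)
    rw [comap_comap, e1]
    rfl
  have hdir : Directed (· ≥ ·) F := fun S T =>
    ⟨S ∪ T, fac _ _ _ (S.orderEmbOfFin rfl).strictMono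
        fun i => Finset.mem_union_left _ (S.orderEmbOfFin_mem rfl i),
      fac _ _ _ (T.orderEmbOfFin rfl).strictMono
        fun i => Finset.mem_union_right _ (T.orderEmbOfFin_mem rfl i)⟩
  have hne : ∀ S, (F S).NeBot := fun S =>
    (tp U S.card).neBot.comap_of_surj
      ((S.orderEmbOfFin rfl).injective.surjective_comp_right)
  have : (⨅ S, F S).NeBot := iInf_neBot_of_directed hdir hne
  let V : Ultrafilter (L → ℕ) := Ultrafilter.of (⨅ S, F S)
  have key : ∀ (k : ℕ) (e : Fin k → L), StrictMono e →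
      (V : Filter (L → ℕ)).map (· ∘ e) = tp U k := by
    intro k e he
    have h1 : (V : Filter (L → ℕ)) ≤ (tp U k : Filter _).comap (· ∘ e) :=
      ((Ultrafilter.of_le _).trans (iInf_le F (Finset.univ.image e))).trans
        (fac _ _ _ he fun i => Finset.mem_image_of_mem _ (Finset.mem_univ i))
    exact (tp U k).unique (map_le_iff_le_comap.2 h1)
  refine ⟨V, fun ι _ z z' h => ?_, fun S B => ?_⟩
  · let S := Finset.univ.image z
    have hz : ∀ a, z a ∈ S := fun a => Finset.mem_image_of_mem _ (Finset.mem_univ a)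
    let e : Fin S.card → L := S.orderEmbOfFin rfl
    let ρ : ι → Fin S.card := fun a => (S.orderIsoOfFin rfl).symm ⟨z a, hz a⟩
    have e1 : ∀ a, e (ρ a) = z a := fun a => by
      simp only [e, ρ]
      rw [← Finset.coe_orderIsoOfFin_apply, OrderIso.apply_symm_apply]
    have hs : ∀ j, ∃ a, z a = e j := fun j => by
      obtain ⟨a, -, ha⟩ := Finset.mem_image.1 (S.orderEmbOfFin_mem rfl j)
      exact ⟨a, ha⟩
    choose c hc using hs
    let e' : Fin S.card → L := fun j => z' (c j)
    have he' : StrictMono e' := fun i j hij =>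
      (h _ _).1 (by rw [hc, hc]; exact (S.orderEmbOfFin rfl).strictMono hij)
    have e2 : ∀ a, e' (ρ a) = z' a := fun a => by
      have h1 : z (c (ρ a)) = z a := by rw [hc, e1]
      refine le_antisymm (not_lt.1 fun h2 => ?_) (not_lt.1 fun h2 => ?_)
      · exact absurd ((h _ _).2 h2) (by rw [h1]; exact lt_irrefl _)
      · exact absurd ((h _ _).2 h2) (by rw [h1]; exact lt_irrefl _)
    have m1 : (V : Filter (L → ℕ)).map (· ∘ z)
        = ((V : Filter (L → ℕ)).map (· ∘ e)).map (· ∘ ρ) := by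
      rw [map_map, ← funext e1]; rfl
    have m2 : (V : Filter (L → ℕ)).map (· ∘ z')
        = ((V : Filter (L → ℕ)).map (· ∘ e')).map (· ∘ ρ) := by
      rw [map_map, ← funext e2]; rfl
    rw [m1, m2, key _ e (S.orderEmbOfFin rfl).strictMono, key _ e' he']
  · have h1 := tp_strictMono U hU S.card B
    rw [← key _ _ (S.orderEmbOfFin rfl).strictMono, eventually_map] at h1
    filter_upwards [h1] with τ hτ
    have hs : ∀ q ∈ S, ∃ j, S.orderEmbOfFin rfl j = q := fun q hq => by
      have : q ∈ Set.range (S.orderEmbOfFin rfl) := by simpa using hq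
      exact this
    refine ⟨fun a ha b hb hab => ?_, fun q hq => ?_⟩
    · obtain ⟨i, rfl⟩ := hs a ha
      obtain ⟨j, rfl⟩ := hs b hb
      exact hτ.1 ((S.orderEmbOfFin rfl).lt_iff_lt.1 hab)
    · obtain ⟨i, rfl⟩ := hs q hq
      exact hτ.2 i

end Pool.Agent.Work.MP_92c8f1_an.Hedge
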