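import Pool.Agent.Work.MP_92c8f1_an.Hedge.Chain
import Pool.Agent.Work.MP_92c8f1_an.Hedge.Ultra
import Mathlib.Order.Monotone.Extension
import Mathlib.LinearAlgebra.Finsupp.LinearCombination

/-!
Passing to the limit along the ultrafilter: an order-indiscernible kernel.
-/

namespace Pool.Agent.Work.MP_92c8f1_an.Hedge

open Pool.Agent.Work.MP_92c8f1_an Function Filter Topology Set

/-- admissible coefficient families -/
def Adm (c : ℚ →₀ ℂ) : Prop :=
  ∀ θ : ℚ → ℝ, Antitone θ → (∀ q, 0 ≤ θ q ∧ θ q ≤ 1) →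
    ‖Finsupp.linearCombination ℂ (fun q => (θ q : ℂ)) c‖ ≤ 1

/-- the value of a cut at a point -/
noncomputable def cut (s x : ℚ) : ℂ := if s ≤ x then 1 else 0

/-- tuples of point masses -/
noncomputable def dl {n : ℕ} (s : Fin n → ℚ) : Fin n → ℚ →₀ ℂ := fun i => Finsupp.single (s i) 1

/-- the limit kernel -/
structure Ind (k : ℕ) where
  /-- the kernel -/
  K : (Fin (k + 2) → ℚ) → MultilinearMap ℂ (fun _ : Fin (k + 1) => ℚ →₀ ℂ) ℂ
  /-- the bound -/
  C : ℝ
  inv : ∀ s x s' x', (∀ a b : Fin (k + 1) ⊕ Fin (k + 2),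
    Sum.elim s x a < Sum.elim s x b ↔ Sum.elim s' x' a < Sum.elim s' x' b) →
    K x (dl s) = K x' (dl s')
  bound : ∀ x c, (∀ i, Adm (c i)) → ‖K x c‖ ≤ C
  test : ∀ c, (∀ i, Adm (c i)) → ∀ m : ℕ, 0 < m → ∀ x : ℕ → ℕ → Fin (k + 2) → ℚ, Separated x →
    ‖testF (m ^ 2) fun u w => K (x u w) c‖ ≤ C * (4 * m)
  coc : ∀ (s : Fin (k + 2) → ℚ) x, Injective s →
    cut (s 0) (x 0) * K x (dl fun i => s i.succ)
      + ∑ i : Fin (k + 1), (-1 : ℂ) ^ ((i : ℕ) + 1) * K x (dl (Fin.contractNth i.castSucc max s))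
      + (-1 : ℂ) ^ (k + 1 + 1) * (cut (s (Fin.last _)) (x 0) * K x (dl fun i => s i.castSucc)) = 0
  bdry : ∀ s (y : Fin (k + 1) → ℚ), ∑ j : Fin (k + 2), (-1 : ℂ) ^ (j : ℕ) * K (y ∘ dd j) (dl s)
    = ∑ j : Fin (k + 2), (-1 : ℂ) ^ (j : ℕ) * ∏ i, cut (s i) (y (dd j i.succ))
  caus : ∀ s x t, (∀ i, s i ≤ t) → K x (dl s) = K (fun j => min (x j) t) (dl s)
  neg : ∀ s x i₀, (∀ i, i ≠ i₀ → s i < s i₀) → (∀ j, x j < s i₀) → K x (dl s) = 0

theorem exists_tendsto {α : Type*} (V : Ultrafilter α) (g : α → ℂ) (B : ℝ)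
    (h : ∀ᶠ a in (V : Filter α), ‖g a‖ ≤ B) : ∃ z, Tendsto g V (𝓝 z) := by
  obtain ⟨z, -, hz⟩ := (isCompact_closedBall (0 : ℂ) B).ultrafilter_le_nhds (V.map g)
    (le_principal_iff.2 (h.mono fun a ha => by simpa using ha))
  exact ⟨z, hz⟩

theorem tendsto_testF {α : Type*} {l : Filter α} : ∀ (n : ℕ) (F : α → ℕ → ℕ → ℂ) (F₀ : ℕ → ℕ → ℂ),
    (∀ u w, Tendsto (fun a => F a u w) l (𝓝 (F₀ u w))) →
      Tendsto (fun a => testF n (F a)) l (𝓝 (testF n F₀)) := by
  have hb : ∀ (n : ℕ) (F : α → ℕ → ℕ → ℂ) (F₀ : ℕ → ℕ → ℂ),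
      (∀ u w, Tendsto (fun a => F a u w) l (𝓝 (F₀ u w))) →
        Tendsto (fun a => blockMean n (F a)) l (𝓝 (blockMean n F₀)) := fun n F F₀ h =>
    ((tendsto_finsetSum _ fun u _ => tendsto_finsetSum _ fun w _ => h u w).const_smul
      _).const_smul _
  intro n
  induction n with
  | zero => intro F F₀ _; exact tendsto_const_nhds
  | succ n ih =>
    intro F F₀ h
    exact (((ih _ _ h).add (ih _ _ fun u w => h _ _)).const_smul _).add
      ((hb _ _ _ fun u w => h _ _).sub (hb _ _ _ fun u w => h _ _))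

theorem eq_zero_of_small {α : Type*} {l : Filter α} [l.NeBot] {f : α → ℂ} {z : ℂ}
    (hf : Tendsto f l (𝓝 z)) (h : ∀ B : ℕ, ∀ᶠ a in l, ‖f a‖ ≤ 1 / ((B : ℝ) + 1)) : z = 0 := by
  rw [← norm_le_zero_iff]
  exact ge_of_tendsto' tendsto_one_div_add_atTop_nhds_zero_nat fun B =>
    le_of_tendsto hf.norm (h B)

variable {Ω : Type*} [TopologicalSpace Ω] [CompactSpace Ω]

theorem IsChain.norm_le_of_adm {k : ℕ} {G : Good Ω k} {r : ℕ} {ε : ℝ} {p : ℕ → Ω}
    {φ : ℕ → C(Ω, ℂ)} (h : IsChain G r ε p φ) {c : ℚ →₀ ℂ} (hc : Adm c) (τ : ℚ → ℕ)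
    (hτ : MonotoneOn τ c.support) (hr : ∀ q ∈ c.support, τ q ≤ r) :
    ‖Finsupp.linearCombination ℂ (fun q => φ (τ q)) c‖ ≤ 1 := by
  obtain ⟨τ', hτ', he⟩ := hτ.exists_monotone_extension (OrderBot.bddBelow _)
    (c.support.finite_toSet.image _).bddAbove
  rw [ContinuousMap.norm_le _ zero_le_one]
  intro ω
  choose! θ h0 h1 hθ using fun t ht => h.unit t ht ω
  have hanti : ∀ t t', t ≤ t' → t' ≤ r → θ t' ≤ θ t := fun t t' htt ht' => by
    rcases htt.eq_or_lt with rfl | htt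
    · exact le_rfl
    · have e := DFunLike.congr_fun (h.mul t t' htt ht') ω
      rw [ContinuousMap.mul_apply, hθ t (by omega), hθ t' ht'] at e
      have e' : θ t * θ t' = θ t' := by exact_mod_cast e
      nlinarith [h0 t (by omega), h1 t' ht']
  have := hc (fun q => θ (min (τ' q) r))
    (fun a b hab => hanti _ _ (min_le_min_right _ (hτ' hab)) (min_le_right _ _))
    fun q => ⟨h0 _ (min_le_right _ _), h1 _ (min_le_right _ _)⟩
  refine le_of_eq_of_le (congrArg _ ?_) this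
  simp only [Finsupp.linearCombination_apply, Finsupp.sum, ContinuousMap.sum_apply,
    ContinuousMap.smul_apply]
  refine Finset.sum_congr rfl fun q hq => ?_
  rw [← he hq, min_eq_left (hr q hq), hθ _ (hr q hq)]

theorem exists_ind [T2Space Ω] {k : ℕ} (G : Good Ω k)
    (hΩ : ∀ r, (derivedSet^[r] (univ : Set Ω)).Nonempty) : Nonempty (Ind k) := by
  classical
  choose P Φ hch using fun r : ℕ => exists_chain G (hΩ r) (ε := 1 / ((r : ℝ) + 1)) (by positivity)
  obtain ⟨V, hV, hmono⟩ := exists_ultra (WithTop ℚ)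
  have ev : ∀ (S : Finset ℚ) (B : ℕ), ∀ᶠ τ in (V : Filter (WithTop ℚ → ℕ)),
      (∀ a ∈ S, ∀ b ∈ S, τ a ≤ τ b ↔ a ≤ b) ∧ (∀ a ∈ S, τ a ≤ τ ⊤) ∧
        1 / ((τ ⊤ : ℝ) + 1) ≤ 1 / ((B : ℝ) + 1) := by
    intro S B
    filter_upwards [hmono (insert ⊤ (S.image (↑))) B] with τ hτ
    have hm : ∀ a ∈ S, (a : WithTop ℚ) ∈ ((insert ⊤ (S.image (↑)) : Finset (WithTop ℚ)) : Set _) :=
      fun a ha => Finset.mem_insert_of_mem (Finset.mem_image_of_mem _ ha)
    refine ⟨fun a ha b hb => (hτ.1.le_iff_le (hm a ha) (hm b hb)).trans WithTop.coe_le_coe,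
      fun a ha => hτ.1.monotoneOn (hm a ha) (Finset.mem_insert_self _ _) le_top, ?_⟩
    have : (B : ℝ) ≤ τ ⊤ := by exact_mod_cast hτ.2 ⊤ (Finset.mem_insert_self _ _)
    gcongr
  let lc : (WithTop ℚ → ℕ) → (ℚ →₀ ℂ) →ₗ[ℂ] C(Ω, ℂ) := fun τ =>
    Finsupp.linearCombination ℂ fun q : ℚ => Φ (τ ⊤) (τ q)
  let g : (WithTop ℚ → ℕ) → (Fin (k + 2) → ℚ) →
      MultilinearMap ℂ (fun _ : Fin (k + 1) => ℚ →₀ ℂ) ℂ := fun τ x =>
    (G.val fun j => P (τ ⊤) (τ (x j))).compLinearMap fun _ => lc τ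
  have hg : ∀ τ x s, g τ x (dl s)
      = G.val (fun j => P (τ ⊤) (τ (x j))) fun i => Φ (τ ⊤) (τ (s i)) := fun τ x s => by
    simp [g, lc, dl]
  have hex : ∀ x c, ∃ z, Tendsto (fun τ => g τ x c) V (𝓝 z) := fun x c => by
    refine exists_tendsto V _ (G.C * ∏ i, ∑ q ∈ (c i).support, ‖c i q‖) ?_
    filter_upwards [ev (Finset.univ.biUnion fun i => (c i).support) 0] with τ hτ
    refine (G.bound _ _).trans (mul_le_mul_of_nonneg_left
      (Finset.prod_le_prod (fun _ _ => norm_nonneg _) fun i _ => ?_) G.C_nonneg)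
    simp only [lc, Finsupp.linearCombination_apply, Finsupp.sum]
    refine (norm_sum_le _ _).trans (Finset.sum_le_sum fun q hq => ?_)
    rw [norm_smul]
    exact mul_le_of_le_one_right (norm_nonneg _) ((hch _).unit _
      (hτ.2.1 q (Finset.mem_biUnion.2 ⟨i, Finset.mem_univ _, hq⟩))).norm_le
  choose K₀ hK₀ using hex
  let K : (Fin (k + 2) → ℚ) → MultilinearMap ℂ (fun _ : Fin (k + 1) => ℚ →₀ ℂ) ℂ := fun x =>
    { toFun := K₀ x
      map_update_add' := fun c i a b => tendsto_nhds_unique (hK₀ x _)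
        (by simpa only [MultilinearMap.map_update_add] using (hK₀ x _).add (hK₀ x _))
      map_update_smul' := fun c i a b => tendsto_nhds_unique (hK₀ x _)
        (by simpa only [MultilinearMap.map_update_smul] using (hK₀ x _).const_smul a) }
  have hK : ∀ x c, Tendsto (fun τ => g τ x c) V (𝓝 (K x c)) := hK₀
  have hadm : ∀ c : Fin (k + 1) → ℚ →₀ ℂ, (∀ i, Adm (c i)) →
      ∀ᶠ τ in (V : Filter (WithTop ℚ → ℕ)), ∀ i, ‖lc τ (c i)‖ ≤ 1 := fun c hc => by
    rw [eventually_all]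
    intro i
    filter_upwards [ev (c i).support 0] with τ hτ
    exact (hch _).norm_le_of_adm (hc i) (fun q => τ q)
      (fun a ha b hb hab => (hτ.1 a ha b hb).2 hab) hτ.2.1
  have hcut : ∀ (S : Finset ℚ) (τ : WithTop ℚ → ℕ), (∀ a ∈ S, ∀ b ∈ S, τ a ≤ τ b ↔ a ≤ b) →
      (∀ a ∈ S, τ a ≤ τ ⊤) → ∀ a ∈ S, ∀ b ∈ S, Φ (τ ⊤) (τ a) (P (τ ⊤) (τ b)) = cut a b :=
    fun S τ h1 h2 a ha b hb => by
      rw [(hch _).ev _ (h2 a ha) _ (h2 b hb), cut]
      simp only [h1 a ha b hb]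
  refine ⟨⟨K, G.C, fun s x s' x' h => ?_, fun x c hc => ?_, fun c hc m hm x hx => ?_,
    fun s x hs => ?_, fun s y => ?_, fun s x t hs => ?_, fun s x i₀ hs hx => ?_⟩⟩
  · let Z : (Fin (k + 1) → ℚ) → (Fin (k + 2) → ℚ) → Option (Fin (k + 1) ⊕ Fin (k + 2)) →
        WithTop ℚ := fun s x o => o.elim ⊤ fun a => (Sum.elim s x a : ℚ)
    let H : (Option (Fin (k + 1) ⊕ Fin (k + 2)) → ℕ) → ℂ := fun σ =>
      G.val (fun j => P (σ none) (σ (some (Sum.inr j)))) fun i => Φ (σ none) (σ (some (Sum.inl i)))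
    have h1 : ∀ s x, Tendsto H ((V : Filter (WithTop ℚ → ℕ)).map (· ∘ Z s x))
        (𝓝 (K x (dl s))) := fun s x => by
      rw [tendsto_map'_iff]
      exact (hK x (dl s)).congr fun τ => hg τ x s
    have h2 := hV _ (Z s x) (Z s' x') (by
      rintro (_ | a) (_ | b)
      · simp [Z]
      · simp [Z]
      · simp [Z]
      · simpa [Z] using h a b)
    exact tendsto_nhds_unique (h1 s x) (h2 ▸ h1 s' x')
  · refine le_of_tendsto (hK x c).norm ?_
    filter_upwards [hadm c hc] with τ hτ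
    exact (G.bound _ _).trans (mul_le_of_le_one_right G.C_nonneg
      (Finset.prod_le_one (fun _ _ => norm_nonneg _) fun i _ => hτ i))
  · refine le_of_tendsto (tendsto_testF _ _ _ fun u w => hK (x u w) c).norm ?_
    filter_upwards [hadm c hc] with τ hτ
    refine G.test _ hτ m hm (fun u w j => P (τ ⊤) (τ (x u w j))) fun j => ?_
    exact (hx j).imp (fun h u w w' => by simp only [h u w w']) fun h u u' w => by
      simp only [h u u' w]
  · refine tendsto_nhds_unique ((((hK _ _).const_mul _).add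
      (tendsto_finsetSum _ fun i _ => (hK _ _).const_mul _)).add
      (((hK _ _).const_mul _).const_mul _)) (tendsto_const_nhds.congr' ?_)
    filter_upwards [ev (Finset.univ.image s ∪ Finset.univ.image x) 0] with τ hτ
    have ms : ∀ i, s i ∈ Finset.univ.image s ∪ Finset.univ.image x := fun i => by simp
    have mx : ∀ i, x i ∈ Finset.univ.image s ∪ Finset.univ.image x := fun i => by simp
    have h1 := G.coc (fun j => P (τ ⊤) (τ (x j))) fun i => Φ (τ ⊤) (τ (s i))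
    have h2 : ∀ i : Fin (k + 1), Fin.contractNth i.castSucc (· * ·)
        (fun i => Φ (τ ⊤) (τ (s i)))
          = fun m => Φ (τ ⊤) (τ (Fin.contractNth i.castSucc max s m : ℚ)) := by
      intro i
      funext m
      simp only [Fin.contractNth]
      split_ifs
      · rfl
      · have hne : s m.castSucc ≠ s m.succ := fun e => (Fin.castSucc_lt_succ).ne (hs e)
        rcases lt_or_gt_of_ne hne with h | h
        · rw [max_eq_right h.le]
          exact (hch _).mul _ _ (not_le.1 fun e => h.not_ge ((hτ.1 _ (ms _) _ (ms _)).1 e))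
            (hτ.2.1 _ (ms _))
        · rw [max_eq_left h.le, mul_comm]
          exact (hch _).mul _ _ (not_le.1 fun e => h.not_ge ((hτ.1 _ (ms _) _ (ms _)).1 e))
            (hτ.2.1 _ (ms _))
      · rfl
    unfold cob cobL at h1
    simp only [h2, hcut _ τ hτ.1 hτ.2.1 _ (ms _) _ (mx _), smul_eq_mul] at h1
    simp only [hg]
    exact h1.symm
  · refine tendsto_nhds_unique (tendsto_finsetSum _ fun i _ => (hK _ _).const_mul _)
      (tendsto_const_nhds.congr' ?_)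
    filter_upwards [ev (Finset.univ.image s ∪ Finset.univ.image y) 0] with τ hτ
    have ms : ∀ i, s i ∈ Finset.univ.image s ∪ Finset.univ.image y := fun i => by simp
    have mx : ∀ i, y i ∈ Finset.univ.image s ∪ Finset.univ.image y := fun i => by simp
    have h1 := G.bdry (fun j => P (τ ⊤) (τ (y j))) fun i => Φ (τ ⊤) (τ (s i))
    simp only [hcut _ τ hτ.1 hτ.2.1 _ (ms _) _ (mx _)] at h1
    simp only [hg]
    exact h1.symm
  · rw [← sub_eq_zero]
    refine eq_zero_of_small ((hK _ _).sub (hK _ _)) fun B => ?_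
    filter_upwards [ev (insert t (Finset.univ.image s ∪ Finset.univ.image x)) B] with τ hτ
    have ms : ∀ i, s i ∈ insert t (Finset.univ.image s ∪ Finset.univ.image x) := fun i => by simp
    have mx : ∀ i, x i ∈ insert t (Finset.univ.image s ∪ Finset.univ.image x) := fun i => by simp
    have mt : t ∈ insert t (Finset.univ.image s ∪ Finset.univ.image x) := by simp
    have h1 := (hch _).caus (fun i => τ (s i)) (fun j => τ (x j)) (τ t) (hτ.2.1 _ mt)
      (fun i => (hτ.1 _ (ms i) _ mt).2 (hs i)) fun j => hτ.2.1 _ (mx j)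
    have h2 : ∀ j, τ (min (x j) t : ℚ) = min (τ (x j)) (τ t) := fun j => by
      rcases le_total (x j) t with h | h
      · rw [min_eq_left h, min_eq_left ((hτ.1 _ (mx j) _ mt).2 h)]
      · rw [min_eq_right h, min_eq_right ((hτ.1 _ mt _ (mx j)).2 h)]
    simp only [hg, h2]
    exact h1.trans hτ.2.2
  · refine eq_zero_of_small (hK _ _) fun B => ?_
    filter_upwards [ev (Finset.univ.image s ∪ Finset.univ.image x) B] with τ hτ
    have ms : ∀ i, s i ∈ Finset.univ.image s ∪ Finset.univ.image x := fun i => by simp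
    have mx : ∀ i, x i ∈ Finset.univ.image s ∪ Finset.univ.image x := fun i => by simp
    rw [hg]
    exact ((hch _).neg (fun i => τ (s i)) (fun j => τ (x j)) i₀ (hτ.2.1 _ (ms _))
      (fun i hi => not_le.1 fun e => (hs i hi).not_ge ((hτ.1 _ (ms _) _ (ms _)).1 e))
      fun j => not_le.1 fun e => (hx j).not_ge ((hτ.1 _ (ms _) _ (mx _)).1 e)).trans hτ.2.2

end Pool.Agent.Work.MP_92c8f1_an.Hedge
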