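import Pool.Agent.Work.MP_92c8f1_an.Hedge.Comb
import Pool.Agent.Work.MP_92c8f1_an.Defs

/-!
The coefficient module, the cocycle, and the non-vanishing theorem.
-/

set_option maxSynthPendingDepth 3

namespace Pool.Agent.Work.MP_92c8f1_an.Hedge

open Pool.Agent.Work.MP_92c8f1_an Function

universe u

section Fun

variable {A : Type*} [CommMonoid A] {V : Type*} [AddCommGroup V] [Module ℂ V]
  (l : A → V →ₗ[ℂ] V)

/-- coboundary for a symmetric action, without the last term -/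
noncomputable def cobLE {n : ℕ} (f : (Fin n → A) → V) (a : Fin (n + 1) → A) : V :=
  l (a 0) (f fun i => a i.succ)
    + ∑ i : Fin n, (-1 : ℂ) ^ ((i : ℕ) + 1) • f (Fin.contractNth i.castSucc (· * ·) a)

/-- coboundary for a symmetric action -/
noncomputable def cobE {n : ℕ} (f : (Fin n → A) → V) (a : Fin (n + 1) → A) : V :=
  cobLE l f a + (-1 : ℂ) ^ (n + 1) • l (a (Fin.last n)) (f fun i => a i.castSucc)

theorem cobLE_snoc {n : ℕ} (f : (Fin (n + 1) → A) → V) (c : Fin n → A) (x b : A) :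
    cobLE l f (Fin.snoc (Fin.snoc c x : Fin (n + 1) → A) b)
      = cobLE l (fun c' : Fin n → A => f (Fin.snoc c' b)) (Fin.snoc c x)
        + (-1 : ℂ) ^ (n + 1) • f (Fin.snoc c (x * b)) := by
  unfold cobLE
  rw [Fin.sum_univ_castSucc, tail_snoc, contract_snoc_last]
  simp only [contract_snoc_castSucc, Fin.val_castSucc, Fin.val_last]
  have : (Fin.snoc (Fin.snoc c x : Fin (n + 1) → A) b : Fin (n + 2) → A) 0
      = (Fin.snoc c x : Fin (n + 1) → A) 0 := by
    rw [← Fin.castSucc_zero, Fin.snoc_castSucc]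
  rw [this]
  abel

theorem cobLE_add {n : ℕ} (f g : (Fin n → A) → V) (a : Fin (n + 1) → A) :
    cobLE l (fun c => f c + g c) a = cobLE l f a + cobLE l g a := by
  unfold cobLE
  simp only [smul_add, map_add, Finset.sum_add_distrib]
  abel

theorem cobLE_smul {n : ℕ} (s : ℂ) (f : (Fin n → A) → V) (a : Fin (n + 1) → A) :
    cobLE l (fun c => s • f c) a = s • cobLE l f a := by
  unfold cobLE
  simp only [smul_add, map_smul, Finset.smul_sum, smul_comm s]

variable {l}

theorem cobLE_act (hl : ∀ a b v, l (a * b) v = l a (l b v)) {n : ℕ} (b : A)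
    (f : (Fin n → A) → V) (a : Fin (n + 1) → A) :
    cobLE l (fun c => l b (f c)) a = l b (cobLE l f a) := by
  unfold cobLE
  simp only [map_add, map_sum, map_smul, ← hl, mul_comm b]

theorem cobLE_cobLE (hl : ∀ a b v, l (a * b) v = l a (l b v)) :
    ∀ {n : ℕ} (f : (Fin n → A) → V) (a : Fin (n + 2) → A), cobLE l (cobLE l f) a = 0 := by
  intro n
  induction n with
  | zero =>
    intro f a
    simp [cobLE, Fin.contractNth, hl, Subsingleton.elim (α := Fin 0 → A) _ default]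
  | succ n ih =>
    intro f a
    obtain ⟨c', y, b, rfl⟩ := exists_snoc_snoc a
    obtain ⟨c, x, rfl⟩ : ∃ (c : Fin n → A) (x : A), c' = Fin.snoc c x :=
      ⟨Fin.init c', c' (Fin.last n), (Fin.snoc_init_self c').symm⟩
    rw [cobLE_snoc]
    have h1 : (fun c'' : Fin (n + 1) → A => cobLE l f (Fin.snoc c'' b))
        = fun c'' => cobLE l (fun c' : Fin n → A => f (Fin.snoc c' b)) c''
          + (-1 : ℂ) ^ (n + 1) • f (Fin.snoc (Fin.init c'') (c'' (Fin.last n) * b)) := by
      funext c''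
      conv_lhs => rw [← Fin.snoc_init_self c'']
      rw [cobLE_snoc, Fin.snoc_init_self]
    rw [h1, cobLE_add, cobLE_smul, ih, cobLE_snoc, cobLE_snoc]
    simp only [Fin.init_snoc, Fin.snoc_last, zero_add, smul_add, smul_smul, mul_assoc]
    rw [pow_succ (-1 : ℂ) (n + 1)]
    simp only [mul_neg, mul_one, neg_smul, neg_mul]
    abel

theorem cobE_cobE (hl : ∀ a b v, l (a * b) v = l a (l b v)) {n : ℕ} (f : (Fin n → A) → V)
    (a : Fin (n + 2) → A) : cobE l (cobE l f) a = 0 := by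
  obtain ⟨c, x, b, rfl⟩ := exists_snoc_snoc a
  have h1 : cobE l f = fun a' => cobLE l f a'
      + (-1 : ℂ) ^ (n + 1) • l (a' (Fin.last n)) (f fun i => a' i.castSucc) := rfl
  rw [cobE, h1, cobLE_add, cobLE_cobLE hl, cobLE_smul, cobLE_snoc]
  simp only [Fin.snoc_last, Fin.snoc_castSucc]
  rw [cobLE_act hl]
  simp only [zero_add, smul_add, smul_smul, map_add, map_smul, mul_comm x b, hl]
  rw [pow_succ (-1 : ℂ) (n + 1)]
  simp only [mul_neg, mul_one, neg_smul, neg_mul]
  abel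

end Fun

theorem norm_testF_le' (m : ℕ) (hm : 0 < m) (a b : ℕ → ℂ) {c d : ℝ} (ha : ∀ i, ‖a i‖ ≤ c)
    (hb : ∀ i, ‖b i‖ ≤ d) : ‖testF (m ^ 2) fun i j => a i * b j‖ ≤ 4 * m * (c * d) := by
  have hc : 0 ≤ c := (norm_nonneg _).trans (ha 0)
  have hd : 0 ≤ d := (norm_nonneg _).trans (hb 0)
  have key : ∀ (a : ℕ → ℂ) (c : ℝ), (∀ i, ‖a i‖ ≤ c) →
      ∃ a' : ℕ → ℂ, (∀ i, ‖a' i‖ ≤ 1) ∧ ∀ i, a i = c * a' i := fun a c ha => by
    have hc : 0 ≤ c := (norm_nonneg _).trans (ha 0)
    rcases hc.eq_or_lt with rfl | hc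
    · exact ⟨0, by simp, fun i => by simpa using ha i⟩
    · refine ⟨fun i => a i / c, fun i => ?_, fun i => ?_⟩
      · rw [norm_div, Complex.norm_real, Real.norm_of_nonneg hc.le, div_le_one hc]
        exact ha i
      · have : (c : ℂ) ≠ 0 := by exact_mod_cast hc.ne'
        field_simp
  obtain ⟨a', ha', ea⟩ := key a c ha
  obtain ⟨b', hb', eb⟩ := key b d hb
  have e := testF_map (LinearMap.mul ℂ ℂ ((c * d : ℝ) : ℂ)) (m ^ 2) fun i j => a' i * b' j
  simp only [LinearMap.mul_apply'] at e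
  have e2 : (fun i j => a i * b j) = fun i j => ((c * d : ℝ) : ℂ) * (a' i * b' j) := by
    funext i j
    rw [ea, eb]
    push_cast
    ring
  rw [e2, ← e, norm_mul, Complex.norm_real, Real.norm_of_nonneg (mul_nonneg hc hd), mul_comm]
  exact mul_le_mul_of_nonneg_right (norm_testF_sq_le m hm a' b' ha' hb') (mul_nonneg hc hd)

section Abstract

variable {A : Type*} [NormedCommRing A] [NormedAlgebra ℂ A]
  {W : Type*} [NormedAddCommGroup W] [NormedSpace ℂ W]

/-- contraction of two neighbouring variables -/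
noncomputable def contrW {n : ℕ} (j : Fin n) (g : ContinuousMultilinearMap ℂ (fun _ : Fin n => A) W) :
    ContinuousMultilinearMap ℂ (fun _ : Fin (n + 1) => A) W :=
  MultilinearMap.mkContinuous
    { toFun := fun a => g (Fin.contractNth j.castSucc (· * ·) a)
      map_update_add' := by
        intro inst a k x y
        obtain rfl : inst = instDecidableEqFin _ := Subsingleton.elim _ _
        obtain ⟨k', u, h⟩ := contract_update j a k
        rw [h, h, h, mul_add, g.map_update_add]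
      map_update_smul' := by
        intro inst a k c x
        obtain rfl : inst = instDecidableEqFin _ := Subsingleton.elim _ _
        obtain ⟨k', u, h⟩ := contract_update j a k
        rw [h, h, mul_smul_comm, g.map_update_smul] } ‖g‖ fun a =>
    (g.le_opNorm _).trans (mul_le_mul_of_nonneg_left (prod_norm_contract j a) (norm_nonneg _))

/-- the coboundary as a bounded multilinear map -/
noncomputable def cocyG (l : A →L[ℂ] W →L[ℂ] W) {n : ℕ}
    (g : ContinuousMultilinearMap ℂ (fun _ : Fin n => A) W) :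
    ContinuousMultilinearMap ℂ (fun _ : Fin (n + 1) => A) W :=
  ContinuousLinearMap.uncurryLeft (Ei := fun _ : Fin (n + 1) => A)
      (((ContinuousLinearMap.compContinuousMultilinearMapL ℂ (fun _ : Fin n => A) W W).flip g).comp l)
    + ∑ i : Fin n, (-1 : ℂ) ^ ((i : ℕ) + 1) • contrW i g
    + (-1 : ℂ) ^ (n + 1) • ContinuousMultilinearMap.uncurryRight (Ei := fun _ : Fin (n + 1) => A)
      (l.flip.compContinuousMultilinearMap g)

theorem cocyG_apply (l : A →L[ℂ] W →L[ℂ] W) {n : ℕ}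
    (g : ContinuousMultilinearMap ℂ (fun _ : Fin n => A) W) (a : Fin (n + 1) → A) :
    cocyG l g a = cobE (fun b => (l b).toLinearMap) g a := by
  simp only [cocyG, cobE, cobLE, add_apply, sum_apply, smul_apply]
  rfl

theorem isBoundedBilinearMap_sub (l : A →L[ℂ] W →L[ℂ] W) (X : Submodule ℂ W)
    (hX : ∀ a, ∀ F ∈ X, l a F ∈ X) :
    IsBoundedBilinearMap ℂ fun p : A × X => (⟨l p.1 p.2, hX p.1 _ p.2.2⟩ : X) where
  add_left _ _ _ := Subtype.ext (by simp)
  smul_left _ _ _ := Subtype.ext (by simp)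
  add_right _ _ _ := Subtype.ext (by simp)
  smul_right _ _ _ := Subtype.ext (by simp)
  bound := ⟨‖l‖ + 1, by positivity, fun a F => (l.le_opNorm₂ a F).trans (by
    rw [Submodule.coe_norm]
    gcongr
    linarith)⟩

/-- an invariant subspace as a symmetric bimodule -/
noncomputable def subMod (l : A →L[ℂ] W →L[ℂ] W) (hl : ∀ a b F, l (a * b) F = l a (l b F))
    (X : Submodule ℂ W) (hX : ∀ a, ∀ F ∈ X, l a F ∈ X) : Bimodule A X where
  l a F := ⟨l a F, hX a _ F.2⟩
  r F a := ⟨l a F, hX a _ F.2⟩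
  l_bdd := isBoundedBilinearMap_sub l X hX
  r_bdd := (isBoundedBilinearMap_sub l X hX).symm
  l_mul a b F := Subtype.ext (hl a b F)
  r_mul a b F := Subtype.ext ((congrArg (l · F) (mul_comm a b)).trans (hl b a F))
  l_r a b F := Subtype.ext (by
    change l a (l b F) = l b (l a F)
    rw [← hl, mul_comm, hl])

theorem coe_coboundary (l : A →L[ℂ] W →L[ℂ] W) (hl : ∀ a b F, l (a * b) F = l a (l b F))
    (X : Submodule ℂ W) (hX : ∀ a, ∀ F ∈ X, l a F ∈ X) {m : ℕ} (f : (Fin m → A) → X)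
    (a : Fin (m + 1) → A) : ((subMod l hl X hX).coboundary f a : W)
      = cobE (fun b => (l b).toLinearMap) (fun c => (f c : W)) a := by
  simp only [Bimodule.coboundary, cobE, cobLE, Submodule.coe_add, Submodule.coe_sum,
    Submodule.coe_smul]
  rfl

theorem exists_split (l : A →L[ℂ] W →L[ℂ] W) (hl : ∀ a b F, l (a * b) F = l a (l b F))
    (X : Submodule ℂ W) (hX : ∀ a, ∀ F ∈ X, l a F ∈ X) {m : ℕ}
    (g : ContinuousMultilinearMap ℂ (fun _ : Fin m => A) W) (hg : ∀ a, cocyG l g a ∈ X)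
    (h : (subMod l hl X hX).SuccCohomologyVanishes m) :
    ∃ S : ContinuousMultilinearMap ℂ (fun _ : Fin m => A) W, (∀ a, S a ∈ X) ∧
      ∀ a, cobE (fun b => (l b).toLinearMap) S a = cobE (fun b => (l b).toLinearMap) g a := by
  obtain ⟨S, hS⟩ := h ((cocyG l g).codRestrict X hg) <| funext fun a => by
    apply Subtype.ext
    rw [coe_coboundary]
    have : (fun c => ((cocyG l g).codRestrict X hg c : W))
        = cobE (fun b => (l b).toLinearMap) g := funext (cocyG_apply l g)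
    rw [this]
    exact cobE_cobE hl _ a
  refine ⟨X.subtypeL.compContinuousMultilinearMap S, fun a => (S a).2, fun a => ?_⟩
  rw [← cocyG_apply l g]
  exact (coe_coboundary l hl X hX S a).symm.trans (congrArg Subtype.val (congrFun hS a))

theorem exists_of_sub {D : Type u} [NormedAddCommGroup D] [NormedSpace ℂ D]
    (l : A →L[ℂ] (D →L[ℂ] ℂ) →L[ℂ] (D →L[ℂ] ℂ)) (hl : ∀ a b F, l (a * b) F = l a (l b F))
    (X : Submodule ℂ (D →L[ℂ] ℂ)) (hX : ∀ a, ∀ F ∈ X, l a F ∈ X)
    (hc : IsClosed (X : Set (D →L[ℂ] ℂ))) {m : ℕ}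
    (h : ¬ (subMod l hl X hX).SuccCohomologyVanishes m) :
    ∃ (X : Type u) (_ : NormedAddCommGroup X) (_ : NormedSpace ℂ X) (_ : CompleteSpace X)
      (M : Bimodule A X), M.IsSymmetric ∧ ¬ M.SuccCohomologyVanishes m :=
  ⟨X, inferInstance, inferInstance, hc.completeSpace_coe, subMod l hl X hX, fun _ _ => rfl, h⟩

variable (A W) in
/-- the action on the dual of a space of operators -/
noncomputable def actG : A →L[ℂ] ((A →L[ℂ] W) →L[ℂ] ℂ) →L[ℂ] ((A →L[ℂ] W) →L[ℂ] ℂ) :=
  (ContinuousLinearMap.compL ℂ (A →L[ℂ] W) (A →L[ℂ] W) ℂ).flip.comp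
    ((ContinuousLinearMap.compL ℂ A A W).flip.comp (ContinuousLinearMap.mul ℂ A))

theorem actG_apply (a : A) (F : (A →L[ℂ] W) →L[ℂ] ℂ) (ψ : A →L[ℂ] W) :
    actG A W a F ψ = F (ψ.comp (ContinuousLinearMap.mul ℂ _ a)) := rfl

theorem actG_mul (a b : A) (F : (A →L[ℂ] W) →L[ℂ] ℂ) :
    actG A W (a * b) F = actG A W a (actG A W b F) := by
  ext ψ
  simp only [actG_apply]
  congr 1
  ext c
  simp [mul_assoc]

end Abstract

variable (Ω : Type*) [TopologicalSpace Ω] [CompactSpace Ω] (n : ℕ)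

/-- forms in one more variable -/
abbrev DD := C(Ω, ℂ) →L[ℂ] Co C(Ω, ℂ) n

/-- the ambient module -/
abbrev WW := DD Ω n →L[ℂ] ℂ

/-- the action on the ambient module -/
noncomputable def act : C(Ω, ℂ) →L[ℂ] WW Ω n →L[ℂ] WW Ω n := actG C(Ω, ℂ) (Co C(Ω, ℂ) n)

/-- the universal cochain -/
noncomputable def iot : ContinuousMultilinearMap ℂ (fun _ : Fin n => C(Ω, ℂ)) (WW Ω n) :=
  (ContinuousLinearMap.apply ℂ (Co C(Ω, ℂ) n) (1 : C(Ω, ℂ))).flipMultilinear

variable {Ω n}

theorem act_apply (a : C(Ω, ℂ)) (F : WW Ω n) (ψ : DD Ω n) :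
    act Ω n a F ψ = F (ψ.comp (ContinuousLinearMap.mul ℂ _ a)) := rfl

theorem act_mul (a b : C(Ω, ℂ)) (F : WW Ω n) : act Ω n (a * b) F = act Ω n a (act Ω n b F) :=
  actG_mul a b F

/-- evaluation at a tuple of points -/
noncomputable def evM (x : Fin (n + 1) → Ω) : DD Ω n :=
  (ContinuousMap.evalCLM ℂ (x 0)).smulRight
    ((ContinuousMultilinearMap.mkPiAlgebra ℂ (Fin n) ℂ).compContinuousLinearMap
      fun i => ContinuousMap.evalCLM ℂ (x i.succ))

theorem evM_apply (x : Fin (n + 1) → Ω) (b : C(Ω, ℂ)) (a : Fin n → C(Ω, ℂ)) :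
    evM x b a = b (x 0) * ∏ i, a i (x i.succ) := by
  simp [evM]

theorem act_evM (a : C(Ω, ℂ)) (F : WW Ω n) (x : Fin (n + 1) → Ω) :
    act Ω n a F (evM x) = a (x 0) * F (evM x) := by
  rw [act_apply, ← smul_eq_mul, ← map_smul]
  congr 1
  ext b c
  simp [evM_apply, mul_assoc]

theorem iot_evM (a : Fin n → C(Ω, ℂ)) (x : Fin (n + 1) → Ω) :
    iot Ω n a (evM x) = ∏ i, a i (x i.succ) := by
  change evM x 1 a = _
  simp [evM_apply]

theorem cobE_evM {m : ℕ} (f : (Fin m → C(Ω, ℂ)) → WW Ω n) (a : Fin (m + 1) → C(Ω, ℂ))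
    (x : Fin (n + 1) → Ω) : cobE (fun b => (act Ω n b).toLinearMap) f a (evM x)
      = cob (fun b : C(Ω, ℂ) => b (x 0)) (fun c => f c (evM x)) a := by
  simp [cobE, cobLE, cob, cobL, act_evM]

theorem norm_DD_le (ψ : DD Ω n) {c : ℝ} (hc : 0 ≤ c)
    (h : ∀ b a, ‖ψ b a‖ ≤ c * ∏ j, ‖(Fin.cons b a : Fin (n + 1) → C(Ω, ℂ)) j‖) : ‖ψ‖ ≤ c := by
  refine ψ.opNorm_le_bound hc fun b => (ψ b).opNorm_le_bound (by positivity) fun a => ?_
  simpa [Fin.prod_univ_succ, mul_assoc] using h b a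

theorem evM_cons (x : Fin (n + 1) → Ω) (b : C(Ω, ℂ)) (a : Fin n → C(Ω, ℂ)) :
    evM x b a = ∏ j, (Fin.cons b a : Fin (n + 1) → C(Ω, ℂ)) j (x j) := by
  simp [evM_apply, Fin.prod_univ_succ]

theorem norm_evM_le (x : Fin (n + 1) → Ω) : ‖evM x‖ ≤ 1 :=
  norm_DD_le _ zero_le_one fun b a => by
    rw [evM_cons, norm_prod, one_mul]
    exact Finset.prod_le_prod (fun _ _ => norm_nonneg _) fun j _ =>
      ContinuousMap.norm_coe_le_norm _ _

theorem norm_test_le (m : ℕ) (hm : 0 < m) (x : ℕ → ℕ → Fin (n + 1) → Ω) (hx : Separated x) :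
    ‖testF (m ^ 2) fun u w => evM (x u w)‖ ≤ 4 * m := by
  classical
  refine norm_DD_le _ (by positivity) fun b a => ?_
  have e := testF_map (((ContinuousMultilinearMap.apply ℂ (fun _ : Fin n => C(Ω, ℂ)) ℂ a).comp
    (ContinuousLinearMap.apply ℂ (Co C(Ω, ℂ) n) b)).toLinearMap) (m ^ 2) fun u w => evM (x u w)
  let p : Fin (n + 1) → Prop := fun j => ∀ u w w', x u w j = x u w' j
  let A : Fin (n + 1) → C(Ω, ℂ) := Fin.cons b a
  have e2 : ∀ u w, evM (x u w) b a = (∏ j ∈ Finset.univ.filter p, A j (x u 0 j))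
      * ∏ j ∈ Finset.univ.filter (¬ p ·), A j (x 0 w j) := fun u w => by
    rw [evM_cons, ← Finset.prod_filter_mul_prod_filter_not _ p]
    congr 1
    · exact Finset.prod_congr rfl fun j hj => by rw [(Finset.mem_filter.1 hj).2 u w 0]
    · exact Finset.prod_congr rfl fun j hj => by
        rw [(hx j).resolve_left (Finset.mem_filter.1 hj).2 u 0 w]
  have e3 : testF (m ^ 2) (fun u w => evM (x u w)) b a
      = testF (m ^ 2) fun u w => evM (x u w) b a := e
  rw [e3, ← Finset.prod_filter_mul_prod_filter_not _ p]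
  simp only [e2]
  refine norm_testF_le' m hm _ _ (fun u => ?_) fun w => ?_ <;>
  · rw [norm_prod]
    exact Finset.prod_le_prod (fun _ _ => norm_nonneg _) fun j _ =>
      ContinuousMap.norm_coe_le_norm _ _

variable (Ω) (k : ℕ)

/-- the coefficient space -/
noncomputable def XX : Submodule ℂ (WW Ω (k + 1)) where
  carrier := {F | (Continuous fun x => F (evM x)) ∧ ∀ y : Fin (k + 1) → Ω,
    ∑ j : Fin (k + 2), (-1 : ℂ) ^ (j : ℕ) * F (evM (y ∘ dd j)) = 0}
  add_mem' := fun hF hG => ⟨hF.1.add hG.1, fun y => by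
    simp only [add_apply, mul_add, Finset.sum_add_distrib, hF.2 y, hG.2 y,
      add_zero]⟩
  zero_mem' := ⟨continuous_const, fun y => by simp⟩
  smul_mem' := fun c F hF => ⟨hF.1.const_smul c, fun y => by
    simp only [smul_apply, smul_eq_mul, mul_left_comm _ c, ← Finset.mul_sum,
      hF.2 y, mul_zero]⟩

theorem isClosed_XX : IsClosed (XX Ω k : Set (WW Ω (k + 1))) := by
  refine IsClosed.inter (s₁ := {F : WW Ω (k + 1) | Continuous fun x => F (evM x)}) ?_ ?_
  · refine isClosed_of_closure_subset fun F hF => ?_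
    refine continuous_of_uniform_approx_of_continuous fun u hu => ?_
    obtain ⟨ε, hε, h⟩ := Metric.mem_uniformity_dist.1 hu
    obtain ⟨G, hG, hFG⟩ := Metric.mem_closure_iff.1 hF ε hε
    refine ⟨_, hG, fun x => h ?_⟩
    rw [dist_eq_norm] at hFG ⊢
    exact (((F - G).le_opNorm _).trans
      (mul_le_of_le_one_right (norm_nonneg _) (norm_evM_le x))).trans_lt hFG
  · change IsClosed {F : WW Ω (k + 1) | ∀ y : Fin (k + 1) → Ω,
      ∑ j : Fin (k + 2), (-1 : ℂ) ^ (j : ℕ) * F (evM (y ∘ dd j)) = 0}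
    simp only [Set.ofPred_forall]
    exact isClosed_iInter fun y => isClosed_eq (by fun_prop) continuous_const

variable {Ω k}

theorem act_mem (a : C(Ω, ℂ)) {F : WW Ω (k + 1)} (hF : F ∈ XX Ω k) : act Ω _ a F ∈ XX Ω k := by
  refine ⟨?_, fun y => ?_⟩
  · simp only [act_evM]
    exact (a.continuous.comp (continuous_apply 0)).mul hF.1
  · simp only [act_evM, comp, dd_zero, mul_left_comm _ (a (y 0)), ← Finset.mul_sum]
    exact mul_eq_zero_of_right _ (hF.2 y)

theorem cocy_mem (a : Fin (k + 2) → C(Ω, ℂ)) :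
    cocyG (act Ω (k + 1)) (iot Ω (k + 1)) a ∈ XX Ω k := by
  refine ⟨?_, fun y => ?_⟩
  · simp only [cocyG_apply, cobE_evM, iot_evM, cob, cobL]
    fun_prop
  · simp only [cocyG_apply, cobE_evM, iot_evM, comp, dd_zero]
    rw [← cob_sum]
    simp only [sum_dd_io (fun j (b : C(Ω, ℂ)) => b (y j)) fun _ _ _ => rfl]
    exact cob_cob (fun _ _ => rfl) _ a

variable (Ω k) in
/-- the symmetric bimodule -/
noncomputable def modX : Bimodule C(Ω, ℂ) (XX Ω k) :=
  subMod (act Ω (k + 1)) act_mul (XX Ω k) fun a _ hF => act_mem a hF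

theorem exists_good (h : (modX Ω k).SuccCohomologyVanishes (k + 1)) : Nonempty (Good Ω k) := by
  obtain ⟨S, hSX, hS⟩ := exists_split _ _ _ _ (iot Ω (k + 1)) cocy_mem h
  let v : ContinuousMultilinearMap ℂ (fun _ : Fin (k + 1) => C(Ω, ℂ)) (WW Ω (k + 1)) :=
    iot Ω (k + 1) - S
  have hv : ∀ a x, v a (evM x) = ∏ i, a i (x i.succ) - S a (evM x) :=
    fun a x => by rw [← iot_evM]; rfl
  let val : (Fin (k + 2) → Ω) → MultilinearMap ℂ (fun _ : Fin (k + 1) => C(Ω, ℂ)) ℂ := fun x =>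
    ((ContinuousLinearMap.apply ℂ ℂ (evM x)).compContinuousMultilinearMap v).toMultilinearMap
  have hval : ∀ x a, val x a = v a (evM x) := fun _ _ => rfl
  have hv0 : 0 ≤ ‖v‖ := v.opNorm_nonneg
  refine ⟨⟨val, ‖v‖, hv0, fun a => ?_, fun x a => ?_, fun a ha m hm x hx => ?_,
    fun x a => ?_, fun y a => ?_⟩⟩
  · simp only [hval, hv]
    exact Continuous.sub (by fun_prop) (hSX a).1
  · exact (((v a).le_opNorm _).trans
      (mul_le_of_le_one_right (norm_nonneg _) (norm_evM_le x))).trans (v.le_opNorm a)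
  · have e := testF_map (v a).toLinearMap (m ^ 2) fun u w => evM (x u w)
    simp only [hval]
    refine (le_of_eq (congrArg _ e.symm)).trans (((v a).le_opNorm _).trans ?_)
    exact mul_le_mul ((v.le_opNorm a).trans (mul_le_of_le_one_right hv0
      (Finset.prod_le_one (fun _ _ => norm_nonneg _) fun i _ => ha i))) (norm_test_le m hm x hx)
      (ContinuousLinearMap.opNorm_nonneg _) hv0
  · have e : (val x : _ → ℂ) = fun a => iot Ω (k + 1) a (evM x) - S a (evM x) := rfl
    rw [e, cob_sub, ← cobE_evM, ← cobE_evM, hS, sub_self]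
  · simp only [hval, hv, mul_sub, Finset.sum_sub_distrib, (hSX a).2 y, sub_zero, comp]

theorem not_vanishes [T2Space Ω] (hΩ : ∀ r, (derivedSet^[r] (Set.univ : Set Ω)).Nonempty) :
    ¬ (modX Ω (k + 1)).SuccCohomologyVanishes (k + 2) := fun h =>
  (exists_good h).elim fun G => (exists_ind G hΩ).elim no_ind

end Pool.Agent.Work.MP_92c8f1_an.Hedge
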